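import Mathlib

set_option maxHeartbeats 4000000

open Complex MeasureTheory Set Filter Topology intervalIntegral

namespace Helper56

/-- Boundary integral of `f` over the rectangle `[a,b] × [c,d]`. -/
noncomputable def rectInt (f : ℂ → ℂ) (a b c d : ℝ) : ℂ :=
  (∫ x in a..b, f (x + c * I)) - (∫ x in a..b, f (x + d * I)) +
    I * (∫ y in c..d, f (b + y * I)) - I * ∫ y in c..d, f (a + y * I)

theorem rectInt_eq_zero {f : ℂ → ℂ} {a b c d : ℝ}
    (h : DifferentiableOn ℂ f ((uIcc a b) ×ℂ (uIcc c d))) : rectInt f a b c d = 0 := by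
  have := Complex.integral_boundary_rect_eq_zero_of_differentiableOn f (a + c * I) (b + d * I)
    (by simpa using h)
  simp only [add_re, ofReal_re, mul_re, I_re, mul_zero, ofReal_im, I_im, mul_one, sub_self,
    add_zero, add_im, mul_im, zero_add, smul_eq_mul] at this
  unfold rectInt
  linear_combination this

theorem integrable_of_cont {f : ℂ → ℂ} {φ : ℝ → ℂ} (hφ : Continuous φ) {a b : ℝ}
    (h : ContinuousOn f (φ '' (uIcc a b))) :
    IntervalIntegrable (fun x => f (φ x)) volume a b :=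
  (h.comp hφ.continuousOn (mapsTo_image _ _)).intervalIntegrable

/-- additivity in the horizontal direction -/
theorem rectInt_add {f : ℂ → ℂ} {a m b c d : ℝ}
    (h1 : IntervalIntegrable (fun x : ℝ => f (x + c * I)) volume a m)
    (h2 : IntervalIntegrable (fun x : ℝ => f (x + c * I)) volume m b)
    (h3 : IntervalIntegrable (fun x : ℝ => f (x + d * I)) volume a m)
    (h4 : IntervalIntegrable (fun x : ℝ => f (x + d * I)) volume m b) :
    rectInt f a b c d = rectInt f a m c d + rectInt f m b c d := by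
  unfold rectInt
  rw [← integral_add_adjacent_intervals h1 h2, ← integral_add_adjacent_intervals h3 h4]
  ring

theorem integral_arctan_sym {R : ℝ} (hR : 0 < R) :
    ∫ x in (-R)..R, (2 * R / (x ^ 2 + R ^ 2) : ℝ) = Real.pi := by
  have h1 : ∀ x : ℝ, HasDerivAt (fun x => 2 * Real.arctan (x / R)) (2 * R / (x ^ 2 + R ^ 2)) x := by
    intro x
    have h := ((hasDerivAt_id x).div_const R).arctan.const_mul 2
    have e : 2 * (1 / (1 + (id x / R) ^ 2) * (1 / R)) = 2 * R / (x ^ 2 + R ^ 2) := by
      have h1 : x ^ 2 + R ^ 2 ≠ 0 := by positivity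
      have h2 : 1 + (x / R) ^ 2 = (x ^ 2 + R ^ 2) / R ^ 2 := by
        field_simp
        ring
      simp only [id]
      rw [h2]
      field_simp
    rw [← e]
    exact h
  rw [integral_eq_sub_of_hasDerivAt (fun x _ => h1 x)]
  · rw [neg_div, div_self hR.ne', Real.arctan_neg, Real.arctan_one]; ring
  · apply Continuous.intervalIntegrable
    exact continuous_const.div (by fun_prop) (fun x => by positivity)

theorem rectInt_inv_square {R : ℝ} (hR : 0 < R) :
    rectInt (fun z => z⁻¹) (-R) R (-R) R = 2 * Real.pi * I := by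
  unfold rectInt
  have hne1 : ∀ x : ℝ, (x : ℂ) + (-R : ℝ) * I ≠ 0 := by
    intro x h
    have := congrArg Complex.im h
    simp at this
    exact hR.ne' this
  have hne2 : ∀ x : ℝ, (x : ℂ) + (R : ℝ) * I ≠ 0 := by
    intro x h
    have := congrArg Complex.im h
    simp at this
    exact hR.ne' this
  have hne3 : ∀ y : ℝ, (R : ℂ) + y * I ≠ 0 := by
    intro x h
    have := congrArg Complex.re h
    simp at this
    exact hR.ne' this
  have hne4 : ∀ y : ℝ, ((-R : ℝ) : ℂ) + y * I ≠ 0 := by
    intro x h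
    have := congrArg Complex.re h
    simp at this
    exact hR.ne' this
  have i1 : IntervalIntegrable (fun x : ℝ => ((x : ℂ) + (-R : ℝ) * I)⁻¹) volume (-R) R :=
    (Continuous.inv₀ (by fun_prop) hne1).intervalIntegrable _ _
  have i2 : IntervalIntegrable (fun x : ℝ => ((x : ℂ) + (R : ℝ) * I)⁻¹) volume (-R) R :=
    (Continuous.inv₀ (by fun_prop) hne2).intervalIntegrable _ _
  have i3 : IntervalIntegrable (fun y : ℝ => ((R : ℂ) + y * I)⁻¹) volume (-R) R :=
    (Continuous.inv₀ (by fun_prop) hne3).intervalIntegrable _ _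
  have i4 : IntervalIntegrable (fun y : ℝ => (((-R : ℝ) : ℂ) + y * I)⁻¹) volume (-R) R :=
    (Continuous.inv₀ (by fun_prop) hne4).intervalIntegrable _ _
  have e1 : (∫ x in (-R)..R, ((x : ℂ) + (-R : ℝ) * I)⁻¹) - (∫ x in (-R)..R, ((x : ℂ) + (R : ℝ) * I)⁻¹)
      = I * (Real.pi : ℂ) := by
    rw [← intervalIntegral.integral_sub i1 i2]
    have : ∀ x : ℝ, ((x : ℂ) + (-R : ℝ) * I)⁻¹ - ((x : ℂ) + (R : ℝ) * I)⁻¹
        = I * ((2 * R / (x ^ 2 + R ^ 2) : ℝ) : ℂ) := by
      intro x
      have hx : ((x : ℂ) ^ 2 + R ^ 2) ≠ 0 := by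
        have : (x ^ 2 + R ^ 2 : ℝ) ≠ 0 := by positivity
        exact_mod_cast this
      have h1 := hne1 x
      have h2 := hne2 x
      push_cast at *
      rw [inv_sub_inv h1 h2]
      have : ((x : ℂ) + -R * I) * (x + R * I) = x ^ 2 + R ^ 2 := by
        ring_nf
        rw [I_sq]; ring
      rw [this]
      field_simp
      ring
    simp_rw [this]
    rw [intervalIntegral.integral_const_mul, intervalIntegral.integral_ofReal,
      integral_arctan_sym hR]
  have e2 : (∫ y in (-R)..R, ((R : ℂ) + y * I)⁻¹) - (∫ y in (-R)..R, (((-R : ℝ) : ℂ) + y * I)⁻¹)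
      = (Real.pi : ℂ) := by
    rw [← intervalIntegral.integral_sub i3 i4]
    have : ∀ y : ℝ, ((R : ℂ) + y * I)⁻¹ - (((-R : ℝ) : ℂ) + y * I)⁻¹
        = ((2 * R / (y ^ 2 + R ^ 2) : ℝ) : ℂ) := by
      intro y
      have hx : ((y : ℂ) ^ 2 + R ^ 2) ≠ 0 := by
        have : (y ^ 2 + R ^ 2 : ℝ) ≠ 0 := by positivity
        exact_mod_cast this
      have h1 := hne3 y
      have h2 := hne4 y
      push_cast at *
      rw [inv_sub_inv h1 h2]
      have : ((R : ℂ) + y * I) * (-R + y * I) = -(y ^ 2 + R ^ 2) := by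
        ring_nf
        rw [I_sq]; ring
      rw [this, div_neg, ← neg_div]
      congr 1
      ring
    simp_rw [this]
    rw [intervalIntegral.integral_ofReal, integral_arctan_sym hR]
  linear_combination e1 + I * e2

/-- Boundary integral of `1/z` over a rectangle `[a,R] × [-R,R]`, `-R ≤ a < 0`. -/
theorem rectInt_inv {R a : ℝ} (hR : 0 < R) (ha : a < 0) (haR : -R ≤ a) :
    rectInt (fun z => z⁻¹) a R (-R) R = 2 * Real.pi * I := by
  have hne1 : ∀ x : ℝ, (x : ℂ) + (-R : ℝ) * I ≠ 0 := by
    intro x h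
    have := congrArg Complex.im h
    simp at this
    exact hR.ne' this
  have hne2 : ∀ x : ℝ, (x : ℂ) + (R : ℝ) * I ≠ 0 := by
    intro x h
    have := congrArg Complex.im h
    simp at this
    exact hR.ne' this
  have i1 : ∀ u v : ℝ, IntervalIntegrable (fun x : ℝ => ((x : ℂ) + (-R : ℝ) * I)⁻¹) volume u v :=
    fun u v => (Continuous.inv₀ (by fun_prop) hne1).intervalIntegrable _ _
  have i2 : ∀ u v : ℝ, IntervalIntegrable (fun x : ℝ => ((x : ℂ) + (R : ℝ) * I)⁻¹) volume u v :=
    fun u v => (Continuous.inv₀ (by fun_prop) hne2).intervalIntegrable _ _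
  have h0 := rectInt_add (f := fun z => z⁻¹) (a := -R) (m := a) (b := R) (c := -R) (d := R)
    (i1 _ _) (i1 _ _) (i2 _ _) (i2 _ _)
  have h1 : rectInt (fun z => z⁻¹) (-R) a (-R) R = 0 := by
    apply rectInt_eq_zero
    apply DifferentiableOn.inv differentiableOn_id
    intro z hz
    rw [mem_reProdIm, uIcc_of_le haR] at hz
    intro h
    have h2 : z = 0 := h
    have := hz.1.2
    rw [h2] at this
    simp at this
    linarith
  rw [h1, zero_add, rectInt_inv_square hR] at h0
  exact h0.symm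

/-- Cauchy formula on the rectangle `[a,R] × [-R,R]`. -/
theorem rectInt_cauchy {G : ℂ → ℂ} {R a : ℝ} (hR : 0 < R) (ha : a < 0) (haR : -R ≤ a)
    (hG : DifferentiableOn ℂ G ((uIcc a R) ×ℂ (uIcc (-R) R))) :
    rectInt (fun z => G z * z⁻¹) a R (-R) R = 2 * Real.pi * I * G 0 := by
  have haR' : a ≤ R := by linarith
  have hmem : ((uIcc a R) ×ℂ (uIcc (-R) R)) ∈ 𝓝 (0 : ℂ) := by
    rw [uIcc_of_le haR', uIcc_of_le (by linarith : -R ≤ R)]
    have : (Ioo a R ×ℂ Ioo (-R) R) ∈ 𝓝 (0:ℂ) := by
      apply (isOpen_Ioo.reProdIm isOpen_Ioo).mem_nhds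
      rw [mem_reProdIm]
      simp [ha, hR]
    refine mem_of_superset this ?_
    exact reProdIm_subset_iff.mpr (prod_mono Ioo_subset_Icc_self Ioo_subset_Icc_self)
  have hd : DifferentiableOn ℂ (dslope G 0) ((uIcc a R) ×ℂ (uIcc (-R) R)) :=
    (Complex.differentiableOn_dslope hmem).mpr hG
  have hz := rectInt_eq_zero hd
  have hne1 : ∀ x : ℝ, (x : ℂ) + (-R : ℝ) * I ≠ 0 := by
    intro x h
    have := congrArg Complex.im h
    simp at this
    exact hR.ne' this
  have hne2 : ∀ x : ℝ, (x : ℂ) + (R : ℝ) * I ≠ 0 := by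
    intro x h
    have := congrArg Complex.im h
    simp at this
    exact hR.ne' this
  have hne3 : ∀ y : ℝ, (R : ℂ) + y * I ≠ 0 := by
    intro x h
    have := congrArg Complex.re h
    simp at this
    exact hR.ne' this
  have hne4 : ∀ y : ℝ, (a : ℂ) + y * I ≠ 0 := by
    intro x h
    have := congrArg Complex.re h
    simp at this
    exact ha.ne this
  have hds : ∀ z : ℂ, z ≠ 0 → dslope G 0 z = G z * z⁻¹ - G 0 * z⁻¹ := by
    intro z hz
    rw [dslope_of_ne _ hz, slope_def_field]
    field_simp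
    ring
  have hGc := hG.continuousOn
  -- continuity of the four sides
  have c1 : ContinuousOn (fun x : ℝ => G (x + (-R : ℝ) * I)) (uIcc a R) := by
    apply hGc.comp (by fun_prop)
    intro x hx
    rw [mem_reProdIm]
    simp only [add_re, ofReal_re, mul_re, I_re, mul_zero, ofReal_im, I_im, mul_one, sub_self,
      add_zero, add_im, mul_im, zero_add]
    exact ⟨hx, left_mem_uIcc⟩
  have c2 : ContinuousOn (fun x : ℝ => G (x + (R : ℝ) * I)) (uIcc a R) := by
    apply hGc.comp (by fun_prop)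
    intro x hx
    rw [mem_reProdIm]
    simp only [add_re, ofReal_re, mul_re, I_re, mul_zero, ofReal_im, I_im, mul_one, sub_self,
      add_zero, add_im, mul_im, zero_add]
    exact ⟨hx, right_mem_uIcc⟩
  have c3 : ContinuousOn (fun y : ℝ => G (R + y * I)) (uIcc (-R) R) := by
    apply hGc.comp (by fun_prop)
    intro x hx
    rw [mem_reProdIm]
    simp only [add_re, ofReal_re, mul_re, I_re, mul_zero, ofReal_im, I_im, mul_one, sub_self,
      add_zero, add_im, mul_im, zero_add]
    exact ⟨right_mem_uIcc, hx⟩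
  have c4 : ContinuousOn (fun y : ℝ => G (a + y * I)) (uIcc (-R) R) := by
    apply hGc.comp (by fun_prop)
    intro x hx
    rw [mem_reProdIm]
    simp only [add_re, ofReal_re, mul_re, I_re, mul_zero, ofReal_im, I_im, mul_one, sub_self,
      add_zero, add_im, mul_im, zero_add]
    exact ⟨left_mem_uIcc, hx⟩
  have k1 : Continuous (fun x : ℝ => ((x : ℂ) + (-R : ℝ) * I)⁻¹) :=
    Continuous.inv₀ (by fun_prop) hne1
  have k2 : Continuous (fun x : ℝ => ((x : ℂ) + (R : ℝ) * I)⁻¹) :=
    Continuous.inv₀ (by fun_prop) hne2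
  have k3 : Continuous (fun x : ℝ => ((R : ℂ) + x * I)⁻¹) :=
    Continuous.inv₀ (by fun_prop) hne3
  have k4 : Continuous (fun x : ℝ => ((a : ℂ) + x * I)⁻¹) :=
    Continuous.inv₀ (by fun_prop) hne4
  have key : rectInt (dslope G 0) a R (-R) R =
      rectInt (fun z => G z * z⁻¹) a R (-R) R - G 0 * rectInt (fun z => z⁻¹) a R (-R) R := by
    unfold rectInt
    have j1 : IntervalIntegrable (fun x : ℝ => G (x + (-R : ℝ) * I) * ((x : ℂ) + (-R : ℝ) * I)⁻¹)
      volume a R := (c1.mul k1.continuousOn).intervalIntegrable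
    have j2 : IntervalIntegrable (fun x : ℝ => G (x + (R : ℝ) * I) * ((x : ℂ) + (R : ℝ) * I)⁻¹)
      volume a R := (c2.mul k2.continuousOn).intervalIntegrable
    have j3 : IntervalIntegrable (fun y : ℝ => G (R + y * I) * ((R : ℂ) + y * I)⁻¹)
      volume (-R) R := (c3.mul k3.continuousOn).intervalIntegrable
    have j4 : IntervalIntegrable (fun y : ℝ => G (a + y * I) * ((a : ℂ) + y * I)⁻¹)
      volume (-R) R := (c4.mul k4.continuousOn).intervalIntegrable
    have l1 : IntervalIntegrable (fun x : ℝ => G 0 * ((x : ℂ) + (-R : ℝ) * I)⁻¹)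
      volume a R := (continuous_const.mul k1).intervalIntegrable _ _
    have l2 : IntervalIntegrable (fun x : ℝ => G 0 * ((x : ℂ) + (R : ℝ) * I)⁻¹)
      volume a R := (continuous_const.mul k2).intervalIntegrable _ _
    have l3 : IntervalIntegrable (fun y : ℝ => G 0 * ((R : ℂ) + y * I)⁻¹)
      volume (-R) R := (continuous_const.mul k3).intervalIntegrable _ _
    have l4 : IntervalIntegrable (fun y : ℝ => G 0 * ((a : ℂ) + y * I)⁻¹)
      volume (-R) R := (continuous_const.mul k4).intervalIntegrable _ _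
    simp_rw [fun x : ℝ => hds _ (hne1 x), fun x : ℝ => hds _ (hne2 x), fun x : ℝ => hds _ (hne3 x),
      fun x : ℝ => hds _ (hne4 x)]
    rw [intervalIntegral.integral_sub j1 l1, intervalIntegral.integral_sub j2 l2,
      intervalIntegral.integral_sub j3 l3, intervalIntegral.integral_sub j4 l4]
    simp only [intervalIntegral.integral_const_mul]
    ring
  rw [hz, rectInt_inv hR ha haR] at key
  linear_combination -key

end Helper56
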