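import Mathlib
import Pool.Agent.Helper56.Rect

set_option maxHeartbeats 4000000

open Complex MeasureTheory Set Filter Topology

namespace Helper56

/-- truncated transform -/
noncomputable def gX (f : ℝ → ℝ) (X : ℝ) (z : ℂ) : ℂ :=
  ∫ x in Ioc (1:ℝ) X, (x:ℂ) ^ (-z - 1) * (f x : ℂ)

theorem gX_eq_mellin (f : ℝ → ℝ) (X : ℝ) (z : ℂ) :
    gX f X z = mellin ((Ioc (1:ℝ) X).indicator (fun x => (f x : ℂ))) (-z) := by
  unfold gX mellin
  rw [← integral_indicator measurableSet_Ioc, ← integral_indicator measurableSet_Ioi]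
  congr 1
  ext x
  by_cases hx : x ∈ Ioc (1:ℝ) X
  · have hx0 : x ∈ Ioi (0:ℝ) := lt_trans one_pos hx.1
    rw [indicator_of_mem hx, indicator_of_mem hx0, indicator_of_mem hx, smul_eq_mul]
  · rw [indicator_of_notMem hx]
    by_cases hx0 : x ∈ Ioi (0:ℝ)
    · rw [indicator_of_mem hx0, indicator_of_notMem hx, smul_zero]
    · rw [indicator_of_notMem hx0]

theorem gX_differentiable {f : ℝ → ℝ} {B : ℝ} (hf : Measurable f)
    (hB : ∀ x, 1 ≤ x → |f x| ≤ B) (X : ℝ) : Differentiable ℂ (gX f X) := by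
  intro z
  have h1 : (gX f X) = fun z => mellin ((Ioc (1:ℝ) X).indicator (fun x => (f x : ℂ))) (-z) := by
    ext z; exact gX_eq_mellin f X z
  rw [h1]
  have hint : IntegrableOn (fun x => (f x : ℂ)) (Ioc (1:ℝ) X) := by
    apply Measure.integrableOn_of_bounded (M := B)
    · simp
    · exact (Complex.measurable_ofReal.comp hf).aestronglyMeasurable
    · refine (ae_restrict_iff' measurableSet_Ioc).mpr (Eventually.of_forall ?_)
      intro x hx
      simpa using hB x hx.1.le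
  have hloc : LocallyIntegrableOn ((Ioc (1:ℝ) X).indicator (fun x => (f x : ℂ))) (Ioi 0) := by
    apply Integrable.locallyIntegrable ?_ |>.locallyIntegrableOn
    rwa [integrable_indicator_iff measurableSet_Ioc]
  have htop : ∀ a : ℝ, ((Ioc (1:ℝ) X).indicator (fun x => (f x : ℂ))) =O[atTop] (fun x : ℝ => x ^ (-a)) := by
    intro a
    apply Asymptotics.IsBigO.of_bound 1
    filter_upwards [eventually_gt_atTop X, eventually_gt_atTop 0] with x hx hx0
    rw [indicator_of_notMem (by intro h; exact absurd h.2 (not_le.mpr hx))]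
    simp
  have hbot : ∀ a : ℝ, ((Ioc (1:ℝ) X).indicator (fun x => (f x : ℂ))) =O[𝓝[>] 0] (fun x : ℝ => x ^ (-a)) := by
    intro a
    apply Asymptotics.IsBigO.of_bound 1
    have : ∀ᶠ x : ℝ in 𝓝[>] 0, x < 1 := by
      apply nhdsWithin_le_nhds
      exact gt_mem_nhds one_pos
    filter_upwards [this] with x hx
    rw [indicator_of_notMem (by intro h; exact absurd h.1 (not_lt.mpr hx.le))]
    simp
  have h2 := mellin_differentiableAt_of_isBigO_rpow (a := (-z).re + 1) (b := (-z).re - 1) (s := -z)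
    hloc (htop _) (by linarith) (hbot _) (by linarith)
  exact h2.comp z differentiable_neg.differentiableAt

theorem gX_zero (f : ℝ → ℝ) {X : ℝ} (hX : 1 ≤ X) :
    gX f X 0 = ∫ x in (1:ℝ)..X, ((f x : ℂ) / x) := by
  unfold gX
  rw [intervalIntegral.integral_of_le hX]
  apply setIntegral_congr_fun measurableSet_Ioc
  intro x hx
  simp only [neg_zero, zero_sub]
  rw [cpow_neg_one]
  field_simp

theorem norm_kernel {x : ℝ} (hx : 0 < x) (z : ℂ) : ‖(x:ℂ) ^ (-z - 1)‖ = x ^ (-z.re - 1) := by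
  rw [norm_cpow_eq_rpow_re_of_pos hx]
  simp

/-- tail bound -/
theorem tail_bound {f : ℝ → ℝ} {B : ℝ} (hf : Measurable f)
    (hB : ∀ x, 1 ≤ x → |f x| ≤ B) {X : ℝ} (hX : 1 ≤ X) {z : ℂ} (hz : 0 < z.re) :
    ‖(∫ x in Ioi (1:ℝ), (x:ℂ) ^ (-z - 1) * (f x : ℂ)) - gX f X z‖ ≤ B * X ^ (-z.re) / z.re := by
  have hmeas : AEStronglyMeasurable (fun x : ℝ => (x:ℂ) ^ (-z - 1) * (f x : ℂ))
      (volume.restrict (Ioi (1:ℝ))) := by
    apply AEStronglyMeasurable.mul
    · apply ContinuousOn.aestronglyMeasurable _ measurableSet_Ioi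
      intro x hx
      apply ContinuousAt.continuousWithinAt
      apply continuousAt_ofReal_cpow_const
      right; exact (lt_trans one_pos hx).ne'
    · exact (Complex.measurable_ofReal.comp hf).aestronglyMeasurable
  have hint0 : ∀ c : ℝ, 1 ≤ c → IntegrableOn (fun x : ℝ => B * x ^ (-z.re - 1)) (Ioi c) := by
    intro c hc
    exact (integrableOn_Ioi_rpow_of_lt (by linarith) (by linarith)).const_mul B
  have hbd : ∀ x : ℝ, 1 < x → ‖(x:ℂ) ^ (-z - 1) * (f x : ℂ)‖ ≤ B * x ^ (-z.re - 1) := by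
    intro x hx
    rw [norm_mul, norm_kernel (by linarith), mul_comm]
    apply mul_le_mul_of_nonneg_right _ (by positivity)
    simpa using hB x hx.le
  have hint : IntegrableOn (fun x : ℝ => (x:ℂ) ^ (-z - 1) * (f x : ℂ)) (Ioi (1:ℝ)) := by
    apply Integrable.mono' (hint0 1 le_rfl) hmeas
    refine (ae_restrict_iff' measurableSet_Ioi).mpr (Eventually.of_forall ?_)
    intro x hx
    exact hbd x hx
  have hsplit : (∫ x in Ioi (1:ℝ), (x:ℂ) ^ (-z - 1) * (f x : ℂ)) - gX f X z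
      = ∫ x in Ioi X, (x:ℂ) ^ (-z - 1) * (f x : ℂ) := by
    unfold gX
    rw [← Ioc_union_Ioi_eq_Ioi hX, setIntegral_union (Ioc_disjoint_Ioi le_rfl) measurableSet_Ioi
      (hint.mono_set Ioc_subset_Ioi_self) (hint.mono_set (Ioi_subset_Ioi hX))]
    ring
  rw [hsplit]
  calc ‖∫ x in Ioi X, (x:ℂ) ^ (-z - 1) * (f x : ℂ)‖ ≤ ∫ x in Ioi X, B * x ^ (-z.re - 1) := by
        apply norm_integral_le_of_norm_le (hint0 X hX)
        refine (ae_restrict_iff' measurableSet_Ioi).mpr (Eventually.of_forall ?_)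
        intro x hx
        exact hbd x (lt_of_le_of_lt hX hx)
    _ = B * X ^ (-z.re) / z.re := by
        rw [integral_const_mul, integral_Ioi_rpow_of_lt (by linarith) (by linarith)]
        have : -z.re - 1 + 1 = -z.re := by ring
        rw [this]
        field_simp

/-- bound for the truncated transform on the left -/
theorem head_bound {f : ℝ → ℝ} {B : ℝ} (hf : Measurable f)
    (hB : ∀ x, 1 ≤ x → |f x| ≤ B) {X : ℝ} (hX : 1 ≤ X) {z : ℂ} (hz : z.re < 0) :
    ‖gX f X z‖ ≤ B * X ^ (-z.re) / (-z.re) := by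
  have hB0 : 0 ≤ B := le_trans (abs_nonneg _) (hB 1 le_rfl)
  unfold gX
  have hpos : 0 < -z.re := by linarith
  calc ‖∫ x in Ioc 1 X, (x:ℂ) ^ (-z - 1) * (f x : ℂ)‖ ≤ ∫ x in Ioc 1 X, B * x ^ (-z.re - 1) := by
        apply norm_integral_le_of_norm_le
        · change IntegrableOn (fun x : ℝ => B * x ^ (-z.re - 1)) (Ioc 1 X) volume
          rw [← intervalIntegrable_iff_integrableOn_Ioc_of_le hX]
          apply IntervalIntegrable.const_mul
          apply intervalIntegral.intervalIntegrable_rpow'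
          linarith
        refine (ae_restrict_iff' measurableSet_Ioc).mpr (Eventually.of_forall ?_)
        intro x hx
        rw [norm_mul, norm_kernel (by linarith [hx.1]), mul_comm]
        apply mul_le_mul_of_nonneg_right _ (by have := hx.1; positivity)
        simpa using hB x hx.1.le
    _ = B * ((X ^ (-z.re) - 1) / (-z.re)) := by
        rw [← intervalIntegral.integral_of_le hX, intervalIntegral.integral_const_mul, integral_rpow]
        · have : -z.re - 1 + 1 = -z.re := by ring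
          rw [this, Real.one_rpow]
        · left; linarith
    _ ≤ B * X ^ (-z.re) / (-z.re) := by
        rw [mul_div_assoc]
        apply mul_le_mul_of_nonneg_left _ hB0
        apply div_le_div_of_nonneg_right _ hpos.le
        linarith

/-- kernel on horizontal sides -/
theorem kern_h {R : ℝ} (hR : 0 < R) (x : ℝ) (s : ℝ) (hs : s = R ∨ s = -R) :
    ‖(1 + ((x:ℂ) + s * I) ^ 2 / (R:ℂ) ^ 2) * ((x:ℂ) + s * I)⁻¹‖ ≤ 2 * |x| / R ^ 2 := by
  have hs2 : (s:ℂ) ^ 2 = (R:ℂ) ^ 2 := by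
    rcases hs with h | h <;> rw [h] <;> push_cast <;> ring
  have hs0 : s ≠ 0 := by
    rcases hs with h | h <;> rw [h] <;> simp [hR.ne']
  have hR' : (R:ℂ) ≠ 0 := by exact_mod_cast hR.ne'
  have hne : (x:ℂ) + s * I ≠ 0 := by
    intro h
    have := congrArg Complex.im h
    simp at this
    exact hs0 this
  have e1 : (1 + ((x:ℂ) + s * I) ^ 2 / (R:ℂ) ^ 2) = x * (x + 2 * s * I) / (R:ℂ) ^ 2 := by
    field_simp
    have : ((x:ℂ) + s * I) ^ 2 = x ^ 2 + 2 * x * s * I - s ^ 2 := by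
      ring_nf
      rw [I_sq]; ring
    rw [this, hs2]
    ring
  rw [e1, norm_mul, norm_div, norm_mul, norm_inv]
  have e2 : ‖(x:ℂ) + 2 * s * I‖ ≤ 2 * ‖(x:ℂ) + s * I‖ := by
    have : ‖(x:ℂ) + 2 * s * I‖ ^ 2 ≤ (2 * ‖(x:ℂ) + s * I‖) ^ 2 := by
      rw [mul_pow, Complex.sq_norm, Complex.sq_norm, Complex.normSq_apply, Complex.normSq_apply]
      simp
      nlinarith [sq_nonneg x]
    exact (sq_le_sq₀ (norm_nonneg _) (by positivity)).mp this
  have e3 : 0 < ‖(x:ℂ) + s * I‖ := norm_pos_iff.mpr hne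
  have e4 : ‖(R:ℂ) ^ 2‖ = R ^ 2 := by
    rw [norm_pow, Complex.norm_real, Real.norm_eq_abs, sq_abs]
  rw [e4, Complex.norm_real, Real.norm_eq_abs]
  calc |x| * ‖(x:ℂ) + 2 * s * I‖ / R ^ 2 * ‖(x:ℂ) + s * I‖⁻¹
      ≤ |x| * (2 * ‖(x:ℂ) + s * I‖) / R ^ 2 * ‖(x:ℂ) + s * I‖⁻¹ := by gcongr
    _ = 2 * |x| / R ^ 2 := by field_simp

/-- kernel on vertical sides -/
theorem kern_v {R : ℝ} (hR : 0 < R) {a y : ℝ} (ha : a ≠ 0) (haR : |a| ≤ R) (hy : |y| ≤ R) :
    ‖(1 + ((a:ℂ) + y * I) ^ 2 / (R:ℂ) ^ 2) * ((a:ℂ) + y * I)⁻¹‖ ≤ 3 / |a| := by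
  have ha' : 0 < |a| := abs_pos.mpr ha
  have e1 : |a| ≤ ‖(a:ℂ) + y * I‖ := by
    have := Complex.abs_re_le_norm ((a:ℂ) + y * I)
    simpa using this
  have e2 : ‖(a:ℂ) + y * I‖ ^ 2 ≤ 2 * R ^ 2 := by
    rw [Complex.sq_norm, Complex.normSq_apply]
    simp
    have h1 : a ^ 2 ≤ R ^ 2 := sq_le_sq' (by linarith [neg_abs_le a]) (by linarith [le_abs_self a])
    have h2 : y ^ 2 ≤ R ^ 2 := sq_le_sq' (by linarith [neg_abs_le y]) (by linarith [le_abs_self y])
    nlinarith
  have e3 : ‖1 + ((a:ℂ) + y * I) ^ 2 / (R:ℂ) ^ 2‖ ≤ 3 := by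
    calc ‖1 + ((a:ℂ) + y * I) ^ 2 / (R:ℂ) ^ 2‖ ≤ ‖(1:ℂ)‖ + ‖((a:ℂ) + y * I) ^ 2 / (R:ℂ) ^ 2‖ :=
          norm_add_le _ _
      _ ≤ 1 + 2 := by
          rw [norm_one, norm_div, norm_pow, norm_pow, Complex.norm_real, Real.norm_eq_abs, sq_abs]
          gcongr
          rw [div_le_iff₀ (by positivity)]
          exact e2
      _ = 3 := by norm_num
  rw [norm_mul, norm_inv]
  calc ‖1 + ((a:ℂ) + y * I) ^ 2 / (R:ℂ) ^ 2‖ * ‖(a:ℂ) + y * I‖⁻¹ ≤ 3 * |a|⁻¹ := by gcongr
    _ = 3 / |a| := by rw [div_eq_mul_inv]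


/-- The main quantitative estimate. -/
theorem newman_bound {f : ℝ → ℝ} {g : ℂ → ℂ} {B : ℝ} (hf : Measurable f)
    (hB : ∀ x, 1 ≤ x → |f x| ≤ B)
    (hgi : ∀ z : ℂ, 0 < z.re → g z = ∫ x in Ioi (1:ℝ), (x:ℂ) ^ (-z - 1) * (f x : ℂ))
    {R δ M : ℝ} (hR : 0 < R) (hδ : 0 < δ) (hδR : δ ≤ R)
    (hgd : DifferentiableOn ℂ g ((uIcc (-δ) R) ×ℂ (uIcc (-R) R)))
    (hM : ∀ z ∈ ((uIcc (-δ) R) ×ℂ (uIcc (-R) R)), ‖g z‖ ≤ M)
    {X : ℝ} (hX : 1 < X) :
    ‖2 * Real.pi * I * (g 0 - gX f X 0)‖ ≤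
      20 * B / R + (4 * M * δ / (R ^ 2 * Real.log X) + 6 * R * M * X ^ (-δ) / δ) := by
  have hX0 : (0:ℝ) < X := by linarith
  have hB0 : 0 ≤ B := le_trans (abs_nonneg _) (hB 1 le_rfl)
  have hlog : 0 < Real.log X := Real.log_pos hX
  set K : ℂ → ℂ := fun z => (X:ℂ) ^ z * (1 + z ^ 2 / (R:ℂ) ^ 2) with hK
  have hKd : Differentiable ℂ K := by
    apply Differentiable.mul
    · intro z
      exact (hasStrictDerivAt_const_cpow (Or.inl (by exact_mod_cast hX0.ne'))).hasDerivAt.differentiableAt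
    · apply Differentiable.add (differentiable_const _)
      exact (differentiable_pow 2).div_const _
  have hK0 : K 0 = 1 := by simp [hK]
  have hKnorm : ∀ z, ‖K z * z⁻¹‖ = X ^ z.re * ‖(1 + z ^ 2 / (R:ℂ) ^ 2) * z⁻¹‖ := by
    intro z
    rw [hK]
    simp only
    rw [mul_assoc, norm_mul, norm_cpow_eq_rpow_re_of_pos hX0]
  have hXd := gX_differentiable hf hB X
  set F1 : ℂ → ℂ := fun z => g z * K z * z⁻¹ with hF1
  set F2 : ℂ → ℂ := fun z => gX f X z * K z * z⁻¹ with hF2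
  have c1 : rectInt F1 (-δ) R (-R) R = 2 * Real.pi * I * g 0 := by
    have := rectInt_cauchy (G := fun z => g z * K z) hR (a := -δ) (by linarith) (by linarith)
      (hgd.mul hKd.differentiableOn)
    rw [hK0, mul_one] at this
    exact this
  have c2 : rectInt F2 (-R) R (-R) R = 2 * Real.pi * I * gX f X 0 := by
    have := rectInt_cauchy (G := fun z => gX f X z * K z) hR (a := -R) (by linarith) (by linarith)
      (hXd.mul hKd).differentiableOn
    rw [hK0, mul_one] at this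
    exact this
  have hcont1 : ContinuousOn F1 (((uIcc (-δ) R) ×ℂ (uIcc (-R) R)) \ {0}) := by
    apply ContinuousOn.mul
    · exact ((hgd.mul hKd.differentiableOn).continuousOn).mono diff_subset
    · exact continuousOn_inv₀.mono (fun z hz => hz.2)
  have hcont2 : ContinuousOn F2 {0}ᶜ := by
    apply ContinuousOn.mul
    · exact (hXd.mul hKd).continuous.continuousOn
    · exact continuousOn_inv₀
  have hδR' : uIcc (-δ) R = Icc (-δ) R := uIcc_of_le (by linarith)
  have hRR' : uIcc (-R) R = Icc (-R) R := uIcc_of_le (by linarith)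
  -- integrability on horizontal sides
  have ih1 : ∀ s : ℝ, (s = R ∨ s = -R) → ∀ u v : ℝ, u ∈ Icc (-δ) R → v ∈ Icc (-δ) R →
      IntervalIntegrable (fun x : ℝ => F1 (x + s * I)) volume u v := by
    intro s hs u v hu hv
    apply ContinuousOn.intervalIntegrable
    apply hcont1.comp (by fun_prop)
    intro x hx
    refine ⟨?_, ?_⟩
    · rw [mem_reProdIm]
      have h1 : x ∈ Icc (-δ) R := by
        have := uIcc_subset_Icc hu hv hx
        exact this
      rw [hδR', hRR']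
      simp only [add_re, ofReal_re, mul_re, I_re, mul_zero, ofReal_im, I_im, mul_one, sub_self,
        add_zero, add_im, mul_im, zero_add]
      refine ⟨h1, ?_⟩
      rcases hs with h | h <;> rw [h] <;> constructor <;> linarith
    · intro h
      have := congrArg Complex.im h
      simp at this
      rcases hs with h | h
      · rw [h] at this; exact hR.ne' this
      · rw [h] at this; simp at this; exact hR.ne' this
  have ih2 : ∀ s : ℝ, (s = R ∨ s = -R) → ∀ u v : ℝ,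
      IntervalIntegrable (fun x : ℝ => F2 (x + s * I)) volume u v := by
    intro s hs u v
    apply ContinuousOn.intervalIntegrable
    apply hcont2.comp (by fun_prop)
    intro x hx h
    have := congrArg Complex.im h
    simp at this
    rcases hs with h | h
    · rw [h] at this; exact hR.ne' this
    · rw [h] at this; simp at this; exact hR.ne' this
  have iv1 : ∀ a : ℝ, (a = R ∨ a = -δ) →
      IntervalIntegrable (fun y : ℝ => F1 (a + y * I)) volume (-R) R := by
    intro a ha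
    apply ContinuousOn.intervalIntegrable
    apply hcont1.comp (by fun_prop)
    intro y hy
    refine ⟨?_, ?_⟩
    · rw [mem_reProdIm]
      rw [hδR']
      simp only [add_re, ofReal_re, mul_re, I_re, mul_zero, ofReal_im, I_im, mul_one, sub_self,
        add_zero, add_im, mul_im, zero_add]
      refine ⟨?_, hy⟩
      rcases ha with h | h <;> rw [h] <;> constructor <;> linarith
    · intro h
      have := congrArg Complex.re h
      simp at this
      rcases ha with h | h <;> rw [h] at this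
      · exact hR.ne' this
      · simp at this; exact hδ.ne' this
  have iv2 : ∀ a : ℝ, a ≠ 0 →
      IntervalIntegrable (fun y : ℝ => F2 (a + y * I)) volume (-R) R := by
    intro a ha
    apply ContinuousOn.intervalIntegrable
    apply hcont2.comp (by fun_prop)
    intro y hy h
    have := congrArg Complex.re h
    simp at this
    exact ha this
  have hmemh1 : (-δ) ∈ Icc (-δ) R := ⟨le_rfl, by linarith⟩
  have hmemh2 : (0:ℝ) ∈ Icc (-δ) R := ⟨by linarith, hR.le⟩
  have hmemh3 : R ∈ Icc (-δ) R := ⟨by linarith, le_rfl⟩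
  have hRl : R = R ∨ R = -R := Or.inl rfl
  have hRr : -R = R ∨ -R = -R := Or.inr rfl
  -- pointwise difference bound to the right of the axis
  have hD : ∀ z : ℂ, 0 < z.re → ‖F1 z - F2 z‖ ≤
      B / z.re * ‖(1 + z ^ 2 / (R:ℂ) ^ 2) * z⁻¹‖ := by
    intro z hz
    have : F1 z - F2 z = (g z - gX f X z) * (K z * z⁻¹) := by
      rw [hF1, hF2]; ring
    rw [this, norm_mul, hKnorm, hgi z hz]
    have h1 := tail_bound hf hB hX.le hz
    have h2 : X ^ (-z.re) * X ^ z.re = 1 := by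
      rw [← Real.rpow_add hX0]; simp
    calc _ ≤ (B * X ^ (-z.re) / z.re) * (X ^ z.re * ‖(1 + z ^ 2 / (R:ℂ) ^ 2) * z⁻¹‖) := by gcongr
      _ = B / z.re * (X ^ (-z.re) * X ^ z.re) * ‖(1 + z ^ 2 / (R:ℂ) ^ 2) * z⁻¹‖ := by ring
      _ = _ := by rw [h2, mul_one]
  have hL : ∀ z : ℂ, z.re < 0 → ‖F2 z‖ ≤
      B / (-z.re) * ‖(1 + z ^ 2 / (R:ℂ) ^ 2) * z⁻¹‖ := by
    intro z hz
    have : F2 z = (gX f X z) * (K z * z⁻¹) := by
      rw [hF2]; ring
    rw [this, norm_mul, hKnorm]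
    have h1 := head_bound hf hB hX.le hz
    have h2 : X ^ (-z.re) * X ^ z.re = 1 := by
      rw [← Real.rpow_add hX0]; simp
    calc _ ≤ (B * X ^ (-z.re) / (-z.re)) * (X ^ z.re * ‖(1 + z ^ 2 / (R:ℂ) ^ 2) * z⁻¹‖) := by gcongr
      _ = B / (-z.re) * (X ^ (-z.re) * X ^ z.re) * ‖(1 + z ^ 2 / (R:ℂ) ^ 2) * z⁻¹‖ := by ring
      _ = _ := by rw [h2, mul_one]
  -- horizontal right
  have b1 : ∀ s : ℝ, (s = R ∨ s = -R) →
      ‖∫ x in (0:ℝ)..R, (F1 (x + s * I) - F2 (x + s * I))‖ ≤ 2 * B / R := by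
    intro s hs
    have := intervalIntegral.norm_integral_le_of_norm_le_const (a := 0) (b := R)
      (f := fun x : ℝ => (F1 (x + s * I) - F2 (x + s * I))) (C := 2 * B / R ^ 2) (by
        intro x hx
        rw [uIoc_of_le hR.le] at hx
        have hre : ((x:ℂ) + s * I).re = x := by simp
        have h1 := hD (x + s * I) (by rw [hre]; exact hx.1)
        have h2 := kern_h hR x s hs
        rw [hre] at h1
        have hx0 := hx.1
        calc _ ≤ _ := h1
          _ ≤ B / x * (2 * |x| / R ^ 2) := by gcongr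
          _ = 2 * B / R ^ 2 := by rw [abs_of_pos hx0]; field_simp)
    calc _ ≤ _ := this
      _ = 2 * B / R := by rw [sub_zero, abs_of_pos hR]; field_simp
  -- vertical right
  have b2 : ‖∫ y in (-R)..R, (F1 (R + y * I) - F2 (R + y * I))‖ ≤ 6 * B / R := by
    have := intervalIntegral.norm_integral_le_of_norm_le_const (a := -R) (b := R)
      (f := fun y : ℝ => (F1 (R + y * I) - F2 (R + y * I))) (C := 3 * B / R ^ 2) (by
        intro y hy
        rw [uIoc_of_le (by linarith)] at hy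
        have hre : ((R:ℂ) + y * I).re = R := by simp
        have h1 := hD (R + y * I) (by rw [hre]; exact hR)
        have h2 := kern_v hR (a := R) (y := y) hR.ne' (by rw [abs_of_pos hR])
          (abs_le.mpr ⟨by linarith [hy.1], hy.2⟩)
        rw [hre] at h1
        calc _ ≤ _ := h1
          _ ≤ B / R * (3 / |R|) := by gcongr
          _ = 3 * B / R ^ 2 := by rw [abs_of_pos hR]; field_simp)
    calc _ ≤ _ := this
      _ = 6 * B / R := by
        rw [sub_neg_eq_add, abs_of_pos (by linarith : 0 < R + R)]; field_simp; ring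
  -- horizontal left for gX
  have b3 : ∀ s : ℝ, (s = R ∨ s = -R) →
      ‖∫ x in (-R)..0, F2 (x + s * I)‖ ≤ 2 * B / R := by
    intro s hs
    have := intervalIntegral.norm_integral_le_of_norm_le_const (a := -R) (b := 0)
      (f := fun x : ℝ => F2 (x + s * I)) (C := 2 * B / R ^ 2) (by
        intro x hx
        rw [uIoc_of_le (by linarith)] at hx
        have hre : ((x:ℂ) + s * I).re = x := by simp
        have h2 := kern_h hR x s hs
        rcases eq_or_lt_of_le hx.2 with h0 | h0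
        · -- the kernel vanishes
          have : F2 ((x:ℂ) + s * I) = (gX f X (x + s * I)) * (K (x + s * I) * (x + s * I)⁻¹) := by
            rw [hF2]; ring
          rw [this, norm_mul, hKnorm]
          rw [h0] at h2 ⊢
          simp only [abs_zero, mul_zero, zero_div] at h2
          rw [le_antisymm h2 (norm_nonneg _)]
          simp only [mul_zero]
          positivity
        · have h1 := hL (x + s * I) (by rw [hre]; exact h0)
          rw [hre] at h1
          have hx0 : 0 < -x := by linarith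
          calc _ ≤ _ := h1
            _ ≤ B / (-x) * (2 * |x| / R ^ 2) := by gcongr
            _ = 2 * B / R ^ 2 := by
              have hx' : x ≠ 0 := h0.ne
              rw [abs_of_neg h0]; field_simp)
    calc _ ≤ _ := this
      _ = 2 * B / R := by rw [sub_neg_eq_add, zero_add, abs_of_pos hR]; field_simp
  -- vertical left for gX
  have b4 : ‖∫ y in (-R)..R, F2 ((-R : ℝ) + y * I)‖ ≤ 6 * B / R := by
    have := intervalIntegral.norm_integral_le_of_norm_le_const (a := -R) (b := R)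
      (f := fun y : ℝ => F2 ((-R : ℝ) + y * I)) (C := 3 * B / R ^ 2) (by
        intro y hy
        rw [uIoc_of_le (by linarith)] at hy
        have hre : (((-R : ℝ):ℂ) + y * I).re = -R := by simp
        have h1 := hL ((-R : ℝ) + y * I) (by rw [hre]; linarith)
        have h2 := kern_v hR (a := -R) (y := y) (by linarith : -R < 0).ne
          (by rw [abs_neg, abs_of_pos hR]) (abs_le.mpr ⟨by linarith [hy.1], hy.2⟩)
        rw [hre, neg_neg] at h1
        calc _ ≤ _ := h1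
          _ ≤ B / R * (3 / |(-R)|) := by gcongr
          _ = 3 * B / R ^ 2 := by rw [abs_neg, abs_of_pos hR]; field_simp)
    calc _ ≤ _ := this
      _ = 6 * B / R := by
        rw [sub_neg_eq_add, abs_of_pos (by linarith : 0 < R + R)]; field_simp; ring
  have hM0 : 0 ≤ M := le_trans (norm_nonneg _) (hM 0 (by
    rw [mem_reProdIm, hδR', hRR']
    simp only [zero_re, zero_im]
    exact ⟨hmemh2, ⟨by linarith, hR.le⟩⟩))
  -- horizontal left for g
  have b5 : ∀ s : ℝ, (s = R ∨ s = -R) →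
      ‖∫ x in (-δ)..0, F1 (x + s * I)‖ ≤ 2 * M * δ / (R ^ 2 * Real.log X) := by
    intro s hs
    have := intervalIntegral.norm_integral_le_of_norm_le_const (a := -δ) (b := 0)
      (f := fun x : ℝ => F1 (x + s * I)) (C := 2 * M / (R ^ 2 * Real.log X)) (by
        intro x hx
        rw [uIoc_of_le (by linarith)] at hx
        have hre : ((x:ℂ) + s * I).re = x := by simp
        have h2 := kern_h hR x s hs
        have : F1 ((x:ℂ) + s * I) = (g (x + s * I)) * (K (x + s * I) * (x + s * I)⁻¹) := by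
          rw [hF1]; ring
        rw [this, norm_mul, hKnorm, hre]
        have h3 := hM (x + s * I) (by
          rw [mem_reProdIm, hδR', hRR']
          simp only [add_re, ofReal_re, mul_re, I_re, mul_zero, ofReal_im, I_im, mul_one, sub_self,
            add_zero, add_im, mul_im, zero_add]
          refine ⟨⟨by linarith [hx.1], by linarith [hx.2]⟩, ?_⟩
          rcases hs with h | h <;> rw [h] <;> constructor <;> linarith)
        have h4 : X ^ x * |x| ≤ 1 / Real.log X := by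
          rw [abs_of_nonpos hx.2, Real.rpow_def_of_pos hX0, le_div_iff₀ hlog]
          have h5 : -(Real.log X * x) ≤ Real.exp (-(Real.log X * x)) := by
            have := Real.add_one_le_exp (-(Real.log X * x))
            linarith
          calc Real.exp (Real.log X * x) * -x * Real.log X
              = Real.exp (Real.log X * x) * (-(Real.log X * x)) := by ring
            _ ≤ Real.exp (Real.log X * x) * Real.exp (-(Real.log X * x)) := by gcongr
            _ = 1 := by rw [← Real.exp_add]; simp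
        calc ‖g (x + s * I)‖ * (X ^ x * ‖(1 + ((x:ℂ) + s * I) ^ 2 / (R:ℂ) ^ 2) * ((x:ℂ) + s * I)⁻¹‖)
            ≤ M * (X ^ x * (2 * |x| / R ^ 2)) := by gcongr
          _ = 2 * M / R ^ 2 * (X ^ x * |x|) := by ring
          _ ≤ 2 * M / R ^ 2 * (1 / Real.log X) := by gcongr
          _ = 2 * M / (R ^ 2 * Real.log X) := by field_simp)
    calc _ ≤ _ := this
      _ = 2 * M * δ / (R ^ 2 * Real.log X) := by
        rw [sub_neg_eq_add, zero_add, abs_of_pos hδ]; ring
  -- vertical left for g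
  have b6 : ‖∫ y in (-R)..R, F1 ((-δ : ℝ) + y * I)‖ ≤ 6 * R * M * X ^ (-δ) / δ := by
    have := intervalIntegral.norm_integral_le_of_norm_le_const (a := -R) (b := R)
      (f := fun y : ℝ => F1 ((-δ : ℝ) + y * I)) (C := 3 * M * X ^ (-δ) / δ) (by
        intro y hy
        rw [uIoc_of_le (by linarith)] at hy
        have hre : (((-δ : ℝ):ℂ) + y * I).re = -δ := by simp
        have : F1 (((-δ : ℝ):ℂ) + y * I) =
            (g ((-δ : ℝ) + y * I)) * (K ((-δ : ℝ) + y * I) * ((-δ : ℝ) + y * I)⁻¹) := by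
          rw [hF1]; ring
        rw [this, norm_mul, hKnorm, hre]
        have h3 := hM ((-δ : ℝ) + y * I) (by
          rw [mem_reProdIm, hδR', hRR']
          simp only [add_re, ofReal_re, mul_re, I_re, mul_zero, ofReal_im, I_im, mul_one, sub_self,
            add_zero, add_im, mul_im, zero_add]
          exact ⟨hmemh1, ⟨by linarith [hy.1], hy.2⟩⟩)
        have h2 := kern_v hR (a := -δ) (y := y) (by linarith : -δ < 0).ne
          (by rw [abs_neg, abs_of_pos hδ]; exact hδR) (abs_le.mpr ⟨by linarith [hy.1], hy.2⟩)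
        calc _ ≤ M * (X ^ (-δ) * (3 / |(-δ)|)) := by gcongr
          _ = 3 * M * X ^ (-δ) / δ := by rw [abs_neg, abs_of_pos hδ]; ring)
    calc _ ≤ _ := this
      _ = 6 * R * M * X ^ (-δ) / δ := by
        rw [sub_neg_eq_add, abs_of_pos (by linarith : 0 < R + R)]; ring
  -- assemble
  have e1 : rectInt F1 (-δ) R (-R) R = (∫ x in (-δ)..0, F1 (x + (-R : ℝ) * I)) +
      (∫ x in (0:ℝ)..R, F1 (x + (-R : ℝ) * I)) -
      ((∫ x in (-δ)..0, F1 (x + (R : ℝ) * I)) + (∫ x in (0:ℝ)..R, F1 (x + (R : ℝ) * I))) +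
      I * (∫ y in (-R)..R, F1 (R + y * I)) - I * (∫ y in (-R)..R, F1 ((-δ : ℝ) + y * I)) := by
    unfold rectInt
    rw [intervalIntegral.integral_add_adjacent_intervals (ih1 _ hRr _ _ hmemh1 hmemh2)
      (ih1 _ hRr _ _ hmemh2 hmemh3),
      intervalIntegral.integral_add_adjacent_intervals (ih1 _ hRl _ _ hmemh1 hmemh2)
      (ih1 _ hRl _ _ hmemh2 hmemh3)]
  have e2 : rectInt F2 (-R) R (-R) R = (∫ x in (-R)..0, F2 (x + (-R : ℝ) * I)) +
      (∫ x in (0:ℝ)..R, F2 (x + (-R : ℝ) * I)) -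
      ((∫ x in (-R)..0, F2 (x + (R : ℝ) * I)) + (∫ x in (0:ℝ)..R, F2 (x + (R : ℝ) * I))) +
      I * (∫ y in (-R)..R, F2 (R + y * I)) - I * (∫ y in (-R)..R, F2 ((-R : ℝ) + y * I)) := by
    unfold rectInt
    rw [intervalIntegral.integral_add_adjacent_intervals (ih2 _ hRr _ _)
      (ih2 _ hRr _ _),
      intervalIntegral.integral_add_adjacent_intervals (ih2 _ hRl _ _)
      (ih2 _ hRl _ _)]
  have s1 : ∀ s : ℝ, (s = R ∨ s = -R) →
      (∫ x in (0:ℝ)..R, (F1 (x + s * I) - F2 (x + s * I))) =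
      (∫ x in (0:ℝ)..R, F1 (x + s * I)) - (∫ x in (0:ℝ)..R, F2 (x + s * I)) := by
    intro s hs
    exact intervalIntegral.integral_sub (ih1 s hs _ _ hmemh2 hmemh3) (ih2 s hs _ _)
  have s2 : (∫ y in (-R)..R, (F1 (R + y * I) - F2 (R + y * I))) =
      (∫ y in (-R)..R, F1 (R + y * I)) - (∫ y in (-R)..R, F2 (R + y * I)) :=
    intervalIntegral.integral_sub (iv1 R (Or.inl rfl)) (iv2 R hR.ne')
  have key : 2 * Real.pi * I * (g 0 - gX f X 0) =
      (∫ x in (0:ℝ)..R, (F1 (x + (-R : ℝ) * I) - F2 (x + (-R : ℝ) * I))) -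
      (∫ x in (0:ℝ)..R, (F1 (x + (R : ℝ) * I) - F2 (x + (R : ℝ) * I))) +
      I * (∫ y in (-R)..R, (F1 (R + y * I) - F2 (R + y * I))) -
      (∫ x in (-R)..0, F2 (x + (-R : ℝ) * I)) + (∫ x in (-R)..0, F2 (x + (R : ℝ) * I)) +
      I * (∫ y in (-R)..R, F2 ((-R : ℝ) + y * I)) +
      ((∫ x in (-δ)..0, F1 (x + (-R : ℝ) * I)) - (∫ x in (-δ)..0, F1 (x + (R : ℝ) * I)) -
      I * (∫ y in (-R)..R, F1 ((-δ : ℝ) + y * I))) := by
    rw [s1 _ hRr, s1 _ hRl, s2, mul_sub, ← c1, ← c2, e1, e2]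
    ring
  rw [key]
  have nI : ∀ w : ℂ, ‖I * w‖ = ‖w‖ := by intro w; rw [norm_mul, norm_I, one_mul]
  set A1 := (∫ x in (0:ℝ)..R, (F1 (x + (-R : ℝ) * I) - F2 (x + (-R : ℝ) * I)))
  set A2 := (∫ x in (0:ℝ)..R, (F1 (x + (R : ℝ) * I) - F2 (x + (R : ℝ) * I)))
  set A3 := (∫ y in (-R)..R, (F1 (R + y * I) - F2 (R + y * I)))
  set A4 := (∫ x in (-R)..0, F2 (x + (-R : ℝ) * I))
  set A5 := (∫ x in (-R)..0, F2 (x + (R : ℝ) * I))
  set A6 := (∫ y in (-R)..R, F2 ((-R : ℝ) + y * I))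
  set A7 := (∫ x in (-δ)..0, F1 (x + (-R : ℝ) * I))
  set A8 := (∫ x in (-δ)..0, F1 (x + (R : ℝ) * I))
  set A9 := (∫ y in (-R)..R, F1 ((-δ : ℝ) + y * I))
  have t : ‖A1 - A2 + I * A3 - A4 + A5 + I * A6 + (A7 - A8 - I * A9)‖ ≤
      ‖A1‖ + ‖A2‖ + ‖A3‖ + ‖A4‖ + ‖A5‖ + ‖A6‖ + (‖A7‖ + ‖A8‖ + ‖A9‖) := by
    calc _ ≤ ‖A1 - A2 + I * A3 - A4 + A5 + I * A6‖ + ‖A7 - A8 - I * A9‖ := norm_add_le _ _
      _ ≤ (‖A1 - A2 + I * A3 - A4 + A5‖ + ‖I * A6‖) + (‖A7 - A8‖ + ‖I * A9‖) :=
          add_le_add (norm_add_le _ _) (norm_sub_le _ _)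
      _ ≤ ((‖A1 - A2 + I * A3 - A4‖ + ‖A5‖) + ‖I * A6‖) + ((‖A7‖ + ‖A8‖) + ‖I * A9‖) := by
          gcongr
          · exact norm_add_le _ _
          · exact norm_sub_le _ _
      _ ≤ (((‖A1 - A2 + I * A3‖ + ‖A4‖) + ‖A5‖) + ‖I * A6‖) + ((‖A7‖ + ‖A8‖) + ‖I * A9‖) := by
          gcongr
          exact norm_sub_le _ _
      _ ≤ ((((‖A1 - A2‖ + ‖I * A3‖) + ‖A4‖) + ‖A5‖) + ‖I * A6‖) + ((‖A7‖ + ‖A8‖) + ‖I * A9‖) := by
          gcongr
          exact norm_add_le _ _
      _ ≤ (((((‖A1‖ + ‖A2‖) + ‖I * A3‖) + ‖A4‖) + ‖A5‖) + ‖I * A6‖) +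
            ((‖A7‖ + ‖A8‖) + ‖I * A9‖) := by
          gcongr
          exact norm_sub_le _ _
      _ = _ := by rw [nI, nI, nI]
  have h1 := b1 _ hRr
  have h2 := b1 _ hRl
  have h3 := b3 _ hRr
  have h4 := b3 _ hRl
  have h5 := b5 _ hRr
  have h6 := b5 _ hRl
  calc _ ≤ _ := t
    _ ≤ 2 * B / R + 2 * B / R + 6 * B / R + 2 * B / R + 2 * B / R + 6 * B / R +
        (2 * M * δ / (R ^ 2 * Real.log X) + 2 * M * δ / (R ^ 2 * Real.log X) +
          6 * R * M * X ^ (-δ) / δ) := by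
        gcongr
    _ = _ := by ring

/-- **Newman's Tauberian theorem** (multiplicative form). -/
theorem newman {f : ℝ → ℝ} {g : ℂ → ℂ} {B : ℝ} (hf : Measurable f)
    (hB : ∀ x, 1 ≤ x → |f x| ≤ B)
    (hg : ∀ z : ℂ, 0 ≤ z.re → AnalyticAt ℂ g z)
    (hgi : ∀ z : ℂ, 0 < z.re → g z = ∫ x in Ioi (1:ℝ), (x:ℂ) ^ (-z - 1) * (f x : ℂ)) :
    Tendsto (fun X : ℝ => ∫ x in (1:ℝ)..X, ((f x : ℂ) / x)) atTop (𝓝 (g 0)) := by
  have hB0 : 0 ≤ B := le_trans (abs_nonneg _) (hB 1 le_rfl)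
  rw [Metric.tendsto_nhds]
  intro ε hε
  -- choose R
  obtain ⟨R, hR1, hRε⟩ : ∃ R : ℝ, 1 ≤ R ∧ 20 * B / R < 3 * ε := by
    refine ⟨20 * B / ε + 1, ?_, ?_⟩
    · have : 0 ≤ 20 * B / ε := by positivity
      linarith
    · rw [div_lt_iff₀ (by positivity)]
      have h1 : 3 * ε * (20 * B / ε + 1) = 60 * B + 3 * ε := by field_simp; ring
      rw [h1]; nlinarith
  have hR : 0 < R := by linarith
  -- choose δ
  have hUo : IsOpen {z : ℂ | AnalyticAt ℂ g z} := isOpen_analyticAt ℂ g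
  have hKc : IsCompact ((Icc (0:ℝ) 0) ×ℂ (Icc (-R) R)) := isCompact_Icc.reProdIm isCompact_Icc
  have hKU : ((Icc (0:ℝ) 0) ×ℂ (Icc (-R) R)) ⊆ {z : ℂ | AnalyticAt ℂ g z} := by
    intro z hz
    rw [mem_reProdIm] at hz
    exact hg z hz.1.1
  obtain ⟨δ', hδ', hδU⟩ := hKc.exists_thickening_subset_open hUo hKU
  set δ := min (δ' / 2) 1 with hδdef
  have hδ : 0 < δ := lt_min (by linarith) one_pos
  have hδR : δ ≤ R := le_trans (min_le_right _ _) hR1
  have hδR' : uIcc (-δ) R = Icc (-δ) R := uIcc_of_le (by linarith)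
  have hRR' : uIcc (-R) R = Icc (-R) R := uIcc_of_le (by linarith)
  have hrect : ((uIcc (-δ) R) ×ℂ (uIcc (-R) R)) ⊆ {z : ℂ | AnalyticAt ℂ g z} := by
    intro z hz
    rw [hδR', hRR', mem_reProdIm] at hz
    rcases le_or_gt 0 z.re with h | h
    · exact hg z h
    · apply hδU
      rw [Metric.mem_thickening_iff]
      refine ⟨(z.im : ℂ) * I, ?_, ?_⟩
      · rw [mem_reProdIm]
        simp only [mul_re, ofReal_re, I_re, mul_zero, ofReal_im, I_im, mul_one, sub_self,
          mul_im, zero_add, add_zero]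
        exact ⟨⟨le_rfl, le_rfl⟩, hz.2⟩
      · rw [dist_eq]
        have : z - (z.im : ℂ) * I = (z.re : ℂ) := by
          apply Complex.ext <;> simp
        rw [this, Complex.norm_real, Real.norm_eq_abs, abs_of_neg h]
        have h1 := hz.1.1
        have h2 : δ ≤ δ' / 2 := min_le_left _ _
        linarith
  have hgd : DifferentiableOn ℂ g ((uIcc (-δ) R) ×ℂ (uIcc (-R) R)) := by
    intro z hz
    exact (hrect hz).differentiableAt.differentiableWithinAt
  have hcomp : IsCompact ((uIcc (-δ) R) ×ℂ (uIcc (-R) R)) := isCompact_uIcc.reProdIm isCompact_uIcc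
  obtain ⟨M, hM⟩ := hcomp.exists_bound_of_continuousOn hgd.continuousOn
  have hlim1 : Tendsto (fun X : ℝ => 4 * M * δ / (R ^ 2 * Real.log X)) atTop (𝓝 0) := by
    apply Tendsto.div_atTop tendsto_const_nhds
    exact Tendsto.const_mul_atTop (by positivity) Real.tendsto_log_atTop
  have hlim2 : Tendsto (fun X : ℝ => 6 * R * M * X ^ (-δ) / δ) atTop (𝓝 0) := by
    have := (tendsto_rpow_neg_atTop hδ).const_mul (6 * R * M)
    have := this.div_const δ
    simpa using this
  have hlim : Tendsto (fun X : ℝ => 20 * B / R + (4 * M * δ / (R ^ 2 * Real.log X) +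
      6 * R * M * X ^ (-δ) / δ)) atTop (𝓝 (20 * B / R + (0 + 0))) :=
    tendsto_const_nhds.add (hlim1.add hlim2)
  have hlt : 20 * B / R + (0 + 0) < 3 * ε := by simpa using hRε
  filter_upwards [(tendsto_order.1 hlim).2 _ hlt, eventually_gt_atTop 1] with X h1 hX
  have h2 := newman_bound hf hB hgi hR hδ hδR hgd hM hX
  have h3 : 2 * Real.pi * ‖g 0 - gX f X 0‖ < 3 * ε := by
    have : ‖2 * Real.pi * I * (g 0 - gX f X 0)‖ = 2 * Real.pi * ‖g 0 - gX f X 0‖ := by
      rw [norm_mul, norm_mul, norm_mul, norm_I, Complex.norm_real, Real.norm_eq_abs,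
        abs_of_pos Real.pi_pos]
      simp
    rw [← this]
    exact lt_of_le_of_lt h2 h1
  rw [dist_comm, dist_eq, ← gX_zero f hX.le]
  have hpi := Real.pi_gt_three
  nlinarith [norm_nonneg (g 0 - gX f X 0)]

end Helper56
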