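import Mathlib
import Pool.Agent.Helper56.Newman

set_option maxHeartbeats 4000000

open Complex MeasureTheory Set Filter Topology
open scoped ArithmeticFunction.vonMangoldt

namespace Helper56

/-- `(s-1) ζ(s)` with the removable singularity filled in. -/
noncomputable def zh : ℂ → ℂ := Function.update (fun s => (s - 1) * riemannZeta s) 1 1

theorem zh_one : zh 1 = 1 := Function.update_self _ _ _

theorem zh_of_ne {s : ℂ} (h : s ≠ 1) : zh s = (s - 1) * riemannZeta s :=
  Function.update_of_ne h _ _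

theorem zh_eventuallyEq {s : ℂ} (hs : s ≠ 1) :
    zh =ᶠ[𝓝 s] fun s => (s - 1) * riemannZeta s := by
  filter_upwards [isOpen_ne.mem_nhds hs] with t ht using zh_of_ne ht

theorem zh_differentiable : Differentiable ℂ zh := by
  have h0 : ∀ s : ℂ, s ≠ 1 → DifferentiableAt ℂ zh s := by
    intro s hs
    exact (((differentiable_id.sub_const 1).differentiableAt).mul
      (differentiableAt_riemannZeta hs)).congr_of_eventuallyEq (zh_eventuallyEq hs)
  intro s
  rcases ne_or_eq s 1 with hs | rfl
  · exact h0 s hs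
  · refine (analyticAt_of_differentiable_on_punctured_nhds_of_continuousAt ?_ ?_).differentiableAt
    · filter_upwards [self_mem_nhdsWithin] with t ht
      exact h0 t ht
    · simpa only [zh, continuousAt_update_same] using riemannZeta_residue_one

theorem zh_ne_zero {s : ℂ} (hs : 1 ≤ s.re) : zh s ≠ 0 := by
  rcases eq_or_ne s 1 with rfl | h
  · rw [zh_one]; exact one_ne_zero
  · rw [zh_of_ne h]
    exact mul_ne_zero (sub_ne_zero.mpr h) (riemannZeta_ne_zero_of_one_le_re hs)

/-- the analytic continuation of the transform of `ψ(x)/x - 1` -/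
noncomputable def gpsi (z : ℂ) : ℂ := -(1 + deriv zh (z + 1) / zh (z + 1)) / (z + 1)

theorem gpsi_analytic (z : ℂ) (hz : 0 ≤ z.re) : AnalyticAt ℂ gpsi z := by
  have h1 : AnalyticAt ℂ zh (z + 1) := zh_differentiable.analyticAt _
  have h2 : AnalyticAt ℂ (fun w : ℂ => w + 1) z := analyticAt_id.add analyticAt_const
  have h3 : AnalyticAt ℂ (fun w => zh (w + 1)) z := AnalyticAt.comp' h1 h2
  have h4 : AnalyticAt ℂ (fun w => deriv zh (w + 1)) z := AnalyticAt.comp' h1.deriv h2
  have h5 : zh (z + 1) ≠ 0 := zh_ne_zero (by simp; exact hz)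
  have h6 : z + 1 ≠ 0 := by
    intro h
    have := congrArg Complex.re h
    simp at this
    linarith
  exact ((analyticAt_const.add (h4.div h3 h5)).neg.div h2 h6)

theorem sum_Icc_vonMangoldt (t : ℝ) : ∑ k ∈ Finset.Icc 1 ⌊t⌋₊, Λ k = Chebyshev.psi t := by
  unfold Chebyshev.psi
  rfl

theorem psi_bound {t : ℝ} (ht : 1 ≤ t) : |Chebyshev.psi t / t - 1| ≤ Real.log 4 + 5 := by
  have h0 := Chebyshev.psi_nonneg t
  have h1 := Chebyshev.psi_le_const_mul_self (x := t) (by linarith)
  have ht0 : 0 < t := by linarith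
  have h2 : Chebyshev.psi t / t ≤ Real.log 4 + 4 := by
    rw [div_le_iff₀ ht0]; exact h1
  have h3 : 0 ≤ Chebyshev.psi t / t := by positivity
  have h4 : 0 ≤ Real.log 4 := Real.log_nonneg (by norm_num)
  rw [abs_le]; constructor <;> linarith

theorem psi_measurable : Measurable (fun x : ℝ => Chebyshev.psi x / x - 1) :=
  ((Chebyshev.psi_mono.measurable).div measurable_id).sub measurable_const

theorem LSeries_Lambda {s : ℂ} (hs : 1 < s.re) :
    LSeries (fun n => (Λ n : ℂ)) s =
      s * ∫ t in Ioi (1:ℝ), (Chebyshev.psi t : ℂ) * (t:ℂ) ^ (-(s + 1)) := by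
  have hO : (fun n : ℕ => ∑ k ∈ Finset.Icc 1 n, Λ k) =O[atTop] fun n => (n : ℝ) ^ (1:ℝ) := by
    apply Asymptotics.IsBigO.of_bound (Real.log 4 + 4)
    filter_upwards with n
    have h1 := sum_Icc_vonMangoldt (n : ℝ)
    rw [Nat.floor_natCast] at h1
    rw [h1, Real.norm_eq_abs, abs_of_nonneg (Chebyshev.psi_nonneg _), Real.rpow_one,
      Real.norm_eq_abs, abs_of_nonneg (Nat.cast_nonneg n)]
    exact Chebyshev.psi_le_const_mul_self (Nat.cast_nonneg n)
  have := LSeries_eq_mul_integral_of_nonneg (fun n => Λ n) zero_le_one hs hO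
    (fun n => ArithmeticFunction.vonMangoldt_nonneg)
  rw [this]
  congr 1
  apply setIntegral_congr_fun measurableSet_Ioi
  intro t ht
  simp only
  congr 1
  rw [← sum_Icc_vonMangoldt]
  push_cast
  rfl

theorem gpsi_integral (z : ℂ) (hz : 0 < z.re) :
    gpsi z = ∫ x in Ioi (1:ℝ), (x:ℂ) ^ (-z - 1) * ((Chebyshev.psi x / x - 1 : ℝ) : ℂ) := by
  have hs : 1 < (z + 1).re := by simp; exact hz
  have hz0 : z ≠ 0 := by
    intro h; rw [h] at hz; simp at hz
  have hz1 : z + 1 ≠ 0 := by
    intro h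
    have := congrArg Complex.re h
    simp at this
    linarith
  have hzne : z + 1 ≠ 1 := by
    intro h; apply hz0; linear_combination h
  -- integrability
  have i1 : IntegrableOn (fun x : ℝ => (x:ℂ) ^ (-z - 1)) (Ioi 1) :=
    integrableOn_Ioi_cpow_of_lt (by simp; linarith) one_pos
  have i2 : IntegrableOn (fun t : ℝ => (Chebyshev.psi t : ℂ) * (t:ℂ) ^ (-((z + 1) + 1))) (Ioi 1) := by
    have i3 : IntegrableOn (fun x : ℝ => (Real.log 4 + 4) * x ^ (-z.re - 1)) (Ioi 1) :=
      (integrableOn_Ioi_rpow_of_lt (by linarith) (by linarith)).const_mul _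
    apply Integrable.mono' i3
    · apply AEStronglyMeasurable.mul
      · exact (Complex.measurable_ofReal.comp Chebyshev.psi_mono.measurable).aestronglyMeasurable
      · apply ContinuousOn.aestronglyMeasurable _ measurableSet_Ioi
        intro x hx
        apply ContinuousAt.continuousWithinAt
        apply continuousAt_ofReal_cpow_const
        right; exact (lt_trans one_pos hx).ne'
    · refine (ae_restrict_iff' measurableSet_Ioi).mpr (Eventually.of_forall ?_)
      intro x hx
      have hx0 : (0:ℝ) < x := lt_trans one_pos hx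
      rw [norm_mul, norm_cpow_eq_rpow_re_of_pos hx0, Complex.norm_real, Real.norm_eq_abs,
        abs_of_nonneg (Chebyshev.psi_nonneg _)]
      have h1 := Chebyshev.psi_le_const_mul_self hx0.le
      have h2 : (-(z + 1 + 1)).re = -z.re - 1 - 1 := by simp; ring
      rw [h2, Real.rpow_sub_one hx0.ne' (-z.re - 1)]
      calc Chebyshev.psi x * (x ^ (-z.re - 1) / x) ≤ (Real.log 4 + 4) * x * (x ^ (-z.re - 1) / x) := by
            gcongr
        _ = _ := by field_simp
  have e1 : (∫ x in Ioi (1:ℝ), (x:ℂ) ^ (-z - 1) * ((Chebyshev.psi x / x - 1 : ℝ) : ℂ)) =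
      (∫ t in Ioi (1:ℝ), (Chebyshev.psi t : ℂ) * (t:ℂ) ^ (-((z + 1) + 1))) -
      ∫ x in Ioi (1:ℝ), (x:ℂ) ^ (-z - 1) := by
    rw [← integral_sub i2 i1]
    apply setIntegral_congr_fun measurableSet_Ioi
    intro x hx
    have hx0 : (x:ℂ) ≠ 0 := by
      have : (0:ℝ) < x := lt_trans one_pos hx
      exact_mod_cast this.ne'
    simp only
    have : -(z + 1 + 1) = (-z - 1) - 1 := by ring
    rw [this, cpow_sub (-z - 1) 1 hx0, cpow_one]
    push_cast
    field_simp
  rw [e1, integral_Ioi_cpow_of_lt (by simp; linarith) one_pos]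
  have e2 := LSeries_Lambda hs
  rw [ArithmeticFunction.LSeries_vonMangoldt_eq_deriv_riemannZeta_div hs] at e2
  have e3 : (∫ t in Ioi (1:ℝ), (Chebyshev.psi t : ℂ) * (t:ℂ) ^ (-((z + 1) + 1))) =
      (-deriv riemannZeta (z + 1) / riemannZeta (z + 1)) / (z + 1) := by
    rw [e2]; field_simp
  rw [e3]
  unfold gpsi
  have hζ : riemannZeta (z + 1) ≠ 0 := riemannZeta_ne_zero_of_one_le_re hs.le
  have e4 : deriv zh (z + 1) = riemannZeta (z + 1) + z * deriv riemannZeta (z + 1) := by
    rw [(zh_eventuallyEq hzne).deriv_eq]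
    have := ((hasDerivAt_id (z + 1)).sub_const 1).mul
      (differentiableAt_riemannZeta hzne).hasDerivAt
    have h2 := this.deriv
    simp only [id, one_mul, add_sub_cancel_right] at h2
    exact h2
  rw [e4, zh_of_ne hzne, ofReal_one, one_cpow]
  have : -z - 1 + 1 = -z := by ring
  rw [this]
  have : z + 1 - 1 = z := by ring
  rw [this]
  field_simp
  ring

/-- Convergence of `∫ (ψ(x) - x)/x² dx`. -/
theorem psi_integral_tendsto : ∃ L : ℝ,
    Tendsto (fun X : ℝ => ∫ x in (1:ℝ)..X, (Chebyshev.psi x / x - 1) / x) atTop (𝓝 L) := by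
  have := newman (f := fun x => Chebyshev.psi x / x - 1) (g := gpsi) (B := Real.log 4 + 5)
    psi_measurable (fun x hx => psi_bound hx) gpsi_analytic gpsi_integral
  refine ⟨(gpsi 0).re, ?_⟩
  have h2 := (Complex.continuous_re.tendsto _).comp this
  refine h2.congr ?_
  intro X
  simp only [Function.comp]
  have : (∫ x in (1:ℝ)..X, (((Chebyshev.psi x / x - 1 : ℝ) : ℂ) / x)) =
      ((∫ x in (1:ℝ)..X, ((Chebyshev.psi x / x - 1) / x) : ℝ) : ℂ) := by
    rw [← intervalIntegral.integral_ofReal]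
    congr 1
    ext x
    push_cast
    rfl
  rw [this, ofReal_re]

end Helper56
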