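import Mathlib
import Pool.Agent.Helper56.PsiInt

set_option maxHeartbeats 4000000

open MeasureTheory Set Filter Topology

namespace Helper56

theorem psi_div_sq_intervalIntegrable {a b : ℝ} (ha : 0 < a) (hb : 0 < b) :
    IntervalIntegrable (fun x : ℝ => (Chebyshev.psi x / x - 1) / x) volume a b := by
  have h1 : IntervalIntegrable (fun x : ℝ => Chebyshev.psi x) volume a b :=
    Chebyshev.psi_mono.intervalIntegrable
  have h2 : ContinuousOn (fun x : ℝ => x⁻¹ * x⁻¹) (uIcc a b) := by
    have : ContinuousOn (fun x : ℝ => x⁻¹) (uIcc a b) := by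
      apply continuousOn_inv₀.mono
      intro x hx
      have : 0 < x := lt_of_lt_of_le (lt_min ha hb) hx.1
      exact this.ne'
    exact this.mul this
  have h3 : ContinuousOn (fun x : ℝ => x⁻¹) (uIcc a b) := by
    apply continuousOn_inv₀.mono
    intro x hx
    have : 0 < x := lt_of_lt_of_le (lt_min ha hb) hx.1
    exact this.ne'
  have h4 := (h1.mul_continuousOn h2).sub h3.intervalIntegrable
  apply h4.congr
  intro x hx
  have : 0 < x := lt_of_lt_of_le (lt_min ha hb) hx.1.le
  simp only
  field_simp

/-- The prime number theorem, `ψ` form. -/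
theorem psi_div_tendsto : Tendsto (fun x : ℝ => Chebyshev.psi x / x) atTop (𝓝 1) := by
  obtain ⟨L, hL⟩ := psi_integral_tendsto
  set J : ℝ → ℝ := fun X : ℝ => ∫ x in (1:ℝ)..X, (Chebyshev.psi x / x - 1) / x with hJ
  have hdiff : ∀ a b : ℝ, 0 < a → 0 < b → J b - J a =
      ∫ x in a..b, (Chebyshev.psi x / x - 1) / x := by
    intro a b ha hb
    rw [hJ]
    simp only
    exact intervalIntegral.integral_interval_sub_left
      (psi_div_sq_intervalIntegrable one_pos hb) (psi_div_sq_intervalIntegrable one_pos ha)
  have hint : ∀ a b c : ℝ, 0 < a → a ≤ b →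
      ∫ x in a..b, (c / x - 1) / x = c * (1 / a - 1 / b) - Real.log (b / a) := by
    intro a b c ha hab
    have hb : 0 < b := by linarith
    have h0 : ∀ x ∈ uIcc a b, HasDerivAt (fun x => -c * x⁻¹ - Real.log x) ((c / x - 1) / x) x := by
      intro x hx
      rw [uIcc_of_le hab] at hx
      have hx0 : 0 < x := by linarith [hx.1]
      have h := ((hasDerivAt_inv hx0.ne').const_mul (-c)).sub (Real.hasDerivAt_log hx0.ne')
      have e : (-c) * (-(x ^ 2)⁻¹) - x⁻¹ = (c / x - 1) / x := by
        field_simp
      rw [← e]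
      exact h
    rw [intervalIntegral.integral_eq_sub_of_hasDerivAt h0]
    · rw [Real.log_div hb.ne' ha.ne']
      field_simp
      ring
    · apply ContinuousOn.intervalIntegrable
      intro x hx
      rw [uIcc_of_le hab] at hx
      have hx0 : 0 < x := by linarith [hx.1]
      apply ContinuousAt.continuousWithinAt
      fun_prop (disch := exact hx0.ne')
  have hcint : ∀ a b c : ℝ, 0 < a → a ≤ b →
      IntervalIntegrable (fun x : ℝ => (c / x - 1) / x) volume a b := by
    intro a b c ha hab
    apply ContinuousOn.intervalIntegrable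
    intro x hx
    rw [uIcc_of_le hab] at hx
    have hx0 : 0 < x := by linarith [hx.1]
    apply ContinuousAt.continuousWithinAt
    fun_prop (disch := exact hx0.ne')
  -- lower bound for J(λ x) - J(x)
  have hlow : ∀ a b : ℝ, 0 < a → a ≤ b →
      Chebyshev.psi a * (1 / a - 1 / b) - Real.log (b / a) ≤ J b - J a := by
    intro a b ha hab
    rw [hdiff a b ha (by linarith), ← hint a b _ ha hab]
    apply intervalIntegral.integral_mono_on hab (hcint a b _ ha hab)
      (psi_div_sq_intervalIntegrable ha (by linarith))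
    intro x hx
    have hx0 : 0 < x := by linarith [hx.1]
    have := Chebyshev.psi_mono hx.1
    gcongr
  have hup : ∀ a b : ℝ, 0 < a → a ≤ b →
      J b - J a ≤ Chebyshev.psi b * (1 / a - 1 / b) - Real.log (b / a) := by
    intro a b ha hab
    rw [hdiff a b ha (by linarith), ← hint a b _ ha hab]
    apply intervalIntegral.integral_mono_on hab
      (psi_div_sq_intervalIntegrable ha (by linarith)) (hcint a b _ ha hab)
    intro x hx
    have hx0 : 0 < x := by linarith [hx.1]
    have := Chebyshev.psi_mono hx.2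
    gcongr
  rw [Metric.tendsto_nhds]
  intro ε hε
  set l := 1 + min ε 1 / 2 with hl
  have hm : 0 < min ε 1 := lt_min hε one_pos
  have hl1 : 1 < l := by rw [hl]; linarith
  have hl0 : 0 < l := by linarith
  have hlε : l - 1 ≤ ε / 2 := by rw [hl]; have := min_le_left ε 1; linarith
  have hl2 : l ≤ 2 := by rw [hl]; have := min_le_right ε 1; linarith
  -- J(l x) - J(x) → 0
  have t1 : Tendsto (fun x : ℝ => J (l * x) - J x) atTop (𝓝 0) := by
    have h1 : Tendsto (fun x : ℝ => J (l * x)) atTop (𝓝 L) :=
      hL.comp (tendsto_id.const_mul_atTop hl0)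
    simpa using h1.sub hL
  have t2 : Tendsto (fun x : ℝ => J x - J (x / l)) atTop (𝓝 0) := by
    have h1 : Tendsto (fun x : ℝ => J (x / l)) atTop (𝓝 L) :=
      hL.comp (tendsto_id.atTop_div_const hl0)
    simpa using hL.sub h1
  have hη : 0 < (l - 1) * ε / 4 := by
    have : 0 < l - 1 := by linarith
    positivity
  filter_upwards [(Metric.tendsto_nhds.mp t1) _ hη, (Metric.tendsto_nhds.mp t2) _ hη,
    eventually_gt_atTop 0] with x h1 h2 hx
  rw [Real.dist_eq, sub_zero] at h1 h2
  have k1 := hlow x (l * x) hx (by nlinarith)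
  have k2 := hup (x / l) x (by positivity) (by rw [div_le_iff₀ hl0]; nlinarith)
  have e1 : l * x / x = l := by field_simp
  have e2 : x / (x / l) = l := by field_simp
  rw [e1] at k1
  rw [e2] at k2
  have g1 : Real.log l ≤ l - 1 := Real.log_le_sub_one_of_pos hl0
  have g2 : 1 - 1 / l ≤ Real.log l := by
    have := Real.one_sub_inv_le_log_of_pos hl0
    simpa using this
  have e3 : Chebyshev.psi x * (1 / x - 1 / (l * x)) = (Chebyshev.psi x / x) * ((l - 1) / l) := by
    field_simp
  have e4 : Chebyshev.psi x * (1 / (x / l) - 1 / x) = (Chebyshev.psi x / x) * (l - 1) := by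
    field_simp
  rw [e3] at k1
  rw [e4] at k2
  set y := Chebyshev.psi x / x
  have h1' := (abs_lt.mp h1).2
  have h2' := (abs_lt.mp h2).1
  have hlm : 0 < l - 1 := by linarith
  rw [Real.dist_eq, abs_lt]
  constructor
  · -- lower bound : y ≥ 1/l + ...
    have h3 : 1 - 1 / l - (l - 1) * ε / 4 < y * (l - 1) := by linarith
    have h4 : 1 - 1 / l = (l - 1) * (1 / l) := by field_simp
    rw [h4] at h3
    have h5 : (l - 1) * (1 / l - ε / 4) < (l - 1) * y := by nlinarith
    have h6 := lt_of_mul_lt_mul_left h5 hlm.le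
    have h7 : 1 - (l - 1) ≤ 1 / l := by
      rw [le_div_iff₀ hl0]; nlinarith
    linarith
  · have h3 : y * ((l - 1) / l) < (l - 1) + (l - 1) * ε / 4 := by linarith
    have h4 : (l - 1) * (y / l) < (l - 1) * (1 + ε / 4) := by
      have : y * ((l - 1) / l) = (l - 1) * (y / l) := by ring
      rw [this] at h3; linarith
    have h5 := lt_of_mul_lt_mul_left h4 hlm.le
    rw [div_lt_iff₀ hl0] at h5
    have h6 : (1 + ε / 4) * l ≤ l + ε / 2 := by nlinarith
    linarith

/-- The prime number theorem, `θ` form. -/
theorem theta_div_tendsto : Tendsto (fun x : ℝ => Chebyshev.theta x / x) atTop (𝓝 1) := by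
  have h1 : Tendsto (fun x : ℝ => (Chebyshev.psi x - Chebyshev.theta x) / x) atTop (𝓝 0) := by
    have h2 : (fun x : ℝ => Chebyshev.psi x - Chebyshev.theta x) =o[atTop] (fun x : ℝ => x) := by
      refine Chebyshev.isBigO_psi_sub_theta_sqrt.trans_isLittleO ?_
      have : (fun x : ℝ => Real.sqrt x) = fun x : ℝ => x ^ (1/2:ℝ) := by
        ext x; exact Real.sqrt_eq_rpow x
      rw [show (Real.sqrt) = fun x : ℝ => x ^ (1/2:ℝ) from this]
      have h3 : (fun x : ℝ => x ^ (1/2:ℝ)) =o[atTop] (fun x : ℝ => x ^ (1:ℝ)) := by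
        rw [Asymptotics.isLittleO_iff_tendsto']
        · have h4 := tendsto_rpow_neg_atTop (y := 1/2) (by norm_num)
          refine h4.congr' ?_
          filter_upwards [eventually_gt_atTop 0] with x hx
          rw [← Real.rpow_sub hx]
          norm_num
        · filter_upwards [eventually_gt_atTop 0] with x hx h
          rw [Real.rpow_one] at h
          exact absurd h hx.ne'
      refine h3.congr_right ?_
      intro x; rw [Real.rpow_one]
    exact h2.tendsto_div_nhds_zero
  have h3 := psi_div_tendsto.sub h1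
  rw [sub_zero] at h3
  refine h3.congr ?_
  intro x
  ring

end Helper56
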