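import Mathlib
import Pool.Agent.Helper56.PNT

set_option maxHeartbeats 4000000

open MeasureTheory Set Filter Topology

namespace Helper56

/-- The prime number theorem: `π(x) log x / x → 1`. -/
theorem pi_mul_log_div_tendsto :
    Tendsto (fun x : ℝ => (Nat.primeCounting ⌊x⌋₊ : ℝ) * Real.log x / x) atTop (𝓝 1) := by
  have h1 : Tendsto (fun x : ℝ => ((Nat.primeCounting ⌊x⌋₊ : ℝ) - Chebyshev.theta x / Real.log x) /
      (x / Real.log x)) atTop (𝓝 0) := by
    have h2 : (fun x : ℝ => (Nat.primeCounting ⌊x⌋₊ : ℝ) - Chebyshev.theta x / Real.log x)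
        =o[atTop] (fun x : ℝ => x / Real.log x) := by
      refine Chebyshev.primeCounting_sub_theta_div_log_isBigO.trans_isLittleO ?_
      rw [Asymptotics.isLittleO_iff_tendsto']
      · refine Tendsto.congr' (f₁ := fun x ↦ (Real.log x)⁻¹) ?_ Real.tendsto_log_atTop.inv_tendsto_atTop
        filter_upwards [eventually_gt_atTop 1] with x hx
        have : 0 < Real.log x := Real.log_pos hx
        field_simp
      · filter_upwards [eventually_gt_atTop 1] with x hx h
        have : 0 < Real.log x := Real.log_pos hx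
        have h3 : x / Real.log x ≠ 0 := by positivity
        exact absurd h h3
    exact h2.tendsto_div_nhds_zero
  have h3 := h1.add theta_div_tendsto
  rw [zero_add] at h3
  refine h3.congr' ?_
  filter_upwards [eventually_gt_atTop 1] with x hx
  have : 0 < Real.log x := Real.log_pos hx
  have hx0 : 0 < x := by linarith
  field_simp
  ring

theorem tendsto_nth_prime_atTop :
    Tendsto (fun n : ℕ => (Nat.nth Nat.Prime n : ℝ)) atTop atTop := by
  apply tendsto_natCast_atTop_atTop.comp
  exact (Nat.nth_strictMono Nat.infinite_setOf_prime).tendsto_atTop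

theorem primeCounting_nth (n : ℕ) : Nat.primeCounting (Nat.nth Nat.Prime n) = n + 1 := by
  rw [Nat.primeCounting_eq_primeCounting'_succ]
  unfold Nat.primeCounting'
  rw [Nat.count_succ, if_pos (Nat.prime_nth_prime n)]
  have := Nat.primeCounting'_nth_eq n
  unfold Nat.primeCounting' at this
  rw [this]

theorem nth_mul_log_tendsto :
    Tendsto (fun n : ℕ => (n + 1 : ℝ) * Real.log (Nat.nth Nat.Prime n : ℝ) /
      (Nat.nth Nat.Prime n : ℝ)) atTop (𝓝 1) := by
  have h := pi_mul_log_div_tendsto.comp tendsto_nth_prime_atTop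
  refine h.congr ?_
  intro n
  simp only [Function.comp]
  rw [Nat.floor_natCast, primeCounting_nth]
  push_cast
  rfl

/-- `log n / log p_n → 1`. -/
theorem log_div_log_nth_tendsto :
    Tendsto (fun n : ℕ => Real.log (n + 1 : ℝ) / Real.log (Nat.nth Nat.Prime n : ℝ))
      atTop (𝓝 1) := by
  have h1 : Tendsto (fun n : ℕ => Real.log ((n + 1 : ℝ) * Real.log (Nat.nth Nat.Prime n : ℝ) /
      (Nat.nth Nat.Prime n : ℝ)) / Real.log (Nat.nth Nat.Prime n : ℝ)) atTop (𝓝 0) := by
    have h2 := (Real.continuousAt_log one_ne_zero).tendsto.comp nth_mul_log_tendsto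
    rw [Real.log_one] at h2
    exact h2.div_atTop (Real.tendsto_log_atTop.comp tendsto_nth_prime_atTop)
  have h3 : Tendsto (fun n : ℕ => Real.log (Real.log (Nat.nth Nat.Prime n : ℝ)) /
      Real.log (Nat.nth Nat.Prime n : ℝ)) atTop (𝓝 0) := by
    have h4 : Tendsto (fun y : ℝ => Real.log y / y) atTop (𝓝 0) :=
      Real.isLittleO_log_id_atTop.tendsto_div_nhds_zero
    exact h4.comp (Real.tendsto_log_atTop.comp tendsto_nth_prime_atTop)
  have h5 := (h1.sub h3).add_const 1
  rw [sub_zero, zero_add] at h5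
  refine h5.congr' ?_
  have hl : ∀ᶠ n : ℕ in atTop, 0 < Real.log (Nat.nth Nat.Prime n : ℝ) :=
    (Real.tendsto_log_atTop.comp tendsto_nth_prime_atTop).eventually_gt_atTop 0
  filter_upwards [hl, tendsto_nth_prime_atTop.eventually_gt_atTop 0] with n hn hp
  have hn1 : (0:ℝ) < n + 1 := by positivity
  rw [Real.log_div (by positivity) hp.ne', Real.log_mul hn1.ne' hn.ne']
  field_simp
  ring

/-- `n log n / p_n → 1`. -/
theorem mul_log_div_nth_tendsto :
    Tendsto (fun n : ℕ => (n + 1 : ℝ) * Real.log (n + 1 : ℝ) / (Nat.nth Nat.Prime n : ℝ))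
      atTop (𝓝 1) := by
  have h := nth_mul_log_tendsto.mul log_div_log_nth_tendsto
  rw [mul_one] at h
  refine h.congr' ?_
  have hl : ∀ᶠ n : ℕ in atTop, 0 < Real.log (Nat.nth Nat.Prime n : ℝ) :=
    (Real.tendsto_log_atTop.comp tendsto_nth_prime_atTop).eventually_gt_atTop 0
  filter_upwards [hl] with n hn
  field_simp

end Helper56
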