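import Mathlib

set_option maxHeartbeats 4000000

open Set Filter Topology

namespace Helper56

/-- Tauber's theorem (the original one, `k * f k → 0`). -/
theorem tauber {f : ℕ → ℝ} {L : ℝ} (h0 : Tendsto (fun k : ℕ => (k : ℝ) * f k) atTop (𝓝 0))
    (h1 : Tendsto (fun x : ℝ => ∑' k, f k * x ^ k) (𝓝[<] 1) (𝓝 L)) :
    Tendsto (fun n => ∑ k ∈ Finset.range n, f k) atTop (𝓝 L) := by
  -- the sequence x_N = 1 - 1/N
  have hx : Tendsto (fun N : ℕ => (1 - 1 / (N : ℝ) : ℝ)) atTop (𝓝[<] 1) := by
    apply tendsto_nhdsWithin_iff.mpr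
    refine ⟨?_, ?_⟩
    · have := (tendsto_const_nhds (x := (1:ℝ))).sub (tendsto_const_div_atTop_nhds_zero_nat 1)
      simpa using this
    · filter_upwards [eventually_gt_atTop 0] with N hN
      have : (0:ℝ) < N := by exact_mod_cast hN
      have : 0 < 1 / (N:ℝ) := by positivity
      simp only [mem_Iio]; linarith
  have h2 := h1.comp hx
  have habs : Tendsto (fun k : ℕ => (k : ℝ) * |f k|) atTop (𝓝 0) := by
    have := h0.abs
    rw [abs_zero] at this
    refine this.congr ?_
    intro k
    rw [abs_mul, abs_of_nonneg (Nat.cast_nonneg k)]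
  have hces := habs.cesaro
  -- difference tends to zero
  have hdiff : Tendsto (fun N : ℕ => (∑ k ∈ Finset.range N, f k) -
      ∑' k, f k * (1 - 1 / (N : ℝ)) ^ k) atTop (𝓝 0) := by
    rw [Metric.tendsto_nhds]
    intro ε hε
    have e1 : ∀ᶠ N : ℕ in atTop, ∀ k ≥ N, (k : ℝ) * |f k| ≤ ε / 3 := by
      have := (tendsto_order.1 habs).2 (ε / 3) (by positivity)
      rw [eventually_atTop] at this ⊢
      obtain ⟨N0, h⟩ := this
      exact ⟨N0, fun N hN k hk => (h k (le_trans hN hk)).le⟩
    have e2 := (tendsto_order.1 hces).2 (ε / 3) (by positivity)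
    filter_upwards [e1, e2, eventually_gt_atTop 1] with N h3 h4 hN
    have hN0 : (0:ℝ) < N := by exact_mod_cast (by omega : 0 < N)
    have hN1 : (1:ℝ) < N := by exact_mod_cast hN
    set x : ℝ := 1 - 1 / (N:ℝ) with hxdef
    have hxN : 1 - x = 1 / N := by rw [hxdef]; ring
    have hinv : 1 / (N:ℝ) < 1 := by rw [div_lt_one hN0]; exact hN1
    have hx0 : 0 < x := by rw [hxdef]; linarith
    have hx1 : x < 1 := by
      have : 0 < 1 / (N:ℝ) := by positivity
      rw [hxdef]; linarith
    have hbd : ∀ k ≥ N, |f k| ≤ ε / 3 / N := by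
      intro k hk
      have hk0 : (0:ℝ) < k := lt_of_lt_of_le hN0 (by exact_mod_cast hk)
      rw [le_div_iff₀ hN0]
      calc |f k| * N ≤ |f k| * k := by
            apply mul_le_mul_of_nonneg_left _ (abs_nonneg _)
            exact_mod_cast hk
        _ = k * |f k| := by ring
        _ ≤ ε / 3 := h3 k hk
    have hgeom : HasSum (fun k : ℕ => ε / 3 / N * x ^ k) (ε / 3 / N * (1 - x)⁻¹) :=
      (hasSum_geometric_of_lt_one hx0.le hx1).mul_left _
    have htb : ∀ k : ℕ, ‖f (k + N) * x ^ (k + N)‖ ≤ ε / 3 / N * x ^ k := by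
      intro k
      rw [norm_mul, Real.norm_eq_abs, Real.norm_eq_abs, abs_of_nonneg (by positivity : 0 ≤ x ^ (k+N))]
      have h5 := hbd (k + N) (by omega)
      have h6 : x ^ (k + N) ≤ x ^ k := pow_le_pow_of_le_one hx0.le hx1.le (by omega)
      gcongr
    have hsumm' : Summable (fun k => f (k + N) * x ^ (k + N)) :=
      Summable.of_norm_bounded hgeom.summable htb
    have hsumm : Summable (fun k => f k * x ^ k) := (summable_nat_add_iff N).mp hsumm'
    have hsplit := hsumm.sum_add_tsum_nat_add N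
    have htail : |∑' k, f (k + N) * x ^ (k + N)| ≤ ε / 3 := by
      have := tsum_of_norm_bounded hgeom htb
      rw [Real.norm_eq_abs] at this
      calc _ ≤ _ := this
        _ = ε / 3 := by rw [hxN]; field_simp
    have hhead : |(∑ k ∈ Finset.range N, f k) - ∑ k ∈ Finset.range N, f k * x ^ k| ≤
        (N:ℝ)⁻¹ * ∑ k ∈ Finset.range N, (k:ℝ) * |f k| := by
      rw [← Finset.sum_sub_distrib, Finset.mul_sum]
      refine le_trans (Finset.abs_sum_le_sum_abs _ _) ?_
      apply Finset.sum_le_sum
      intro k hk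
      have h7 : 1 - x ^ k ≤ k * (1 - x) := by
        have := one_add_mul_le_pow (a := x - 1) (by linarith) k
        have e : 1 + (x - 1) = x := by ring
        rw [e] at this
        linarith
      have h8 : 0 ≤ 1 - x ^ k := by
        have := pow_le_one₀ (n := k) hx0.le hx1.le
        linarith
      have : f k - f k * x ^ k = f k * (1 - x ^ k) := by ring
      rw [this, abs_mul, abs_of_nonneg h8]
      calc |f k| * (1 - x ^ k) ≤ |f k| * (k * (1 - x)) := by gcongr
        _ = (N:ℝ)⁻¹ * (k * |f k|) := by rw [hxN]; ring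
    rw [Real.dist_eq, sub_zero, ← hsplit]
    have : (∑ k ∈ Finset.range N, f k) - (∑ k ∈ Finset.range N, f k * x ^ k +
        ∑' k, f (k + N) * x ^ (k + N)) = ((∑ k ∈ Finset.range N, f k) -
        ∑ k ∈ Finset.range N, f k * x ^ k) - ∑' k, f (k + N) * x ^ (k + N) := by ring
    rw [this]
    calc _ ≤ _ := abs_sub _ _
      _ ≤ (N:ℝ)⁻¹ * (∑ k ∈ Finset.range N, (k:ℝ) * |f k|) + ε / 3 := add_le_add hhead htail
      _ < ε := by linarith
  have := hdiff.add h2
  rw [zero_add] at this
  refine this.congr ?_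
  intro N
  simp only [Function.comp]
  ring

end Helper56
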