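import Mathlib
import Pool.Agent.Helper56.PNT

set_option maxHeartbeats 4000000

open MeasureTheory Set Filter Topology

namespace Helper56

/-- `log p` on primes -/
noncomputable def cp (k : ℕ) : ℝ := if k.Prime then Real.log k else 0

theorem sum_cp (t : ℝ) : ∑ k ∈ Finset.Icc 0 ⌊t⌋₊, cp k = Chebyshev.theta t := by
  rw [Chebyshev.theta_eq_sum_Icc, Finset.sum_filter]
  rfl

theorem sum_cp_div {a b : ℝ} (ha : 0 < a) (hab : a ≤ b) :
    ∑ k ∈ Finset.Ioc ⌊a⌋₊ ⌊b⌋₊, (k:ℝ)⁻¹ * cp k =
      b⁻¹ * Chebyshev.theta b - a⁻¹ * Chebyshev.theta a +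
        ∫ t in a..b, Chebyshev.theta t / t ^ 2 := by
  have h := sum_mul_eq_sub_sub_integral_mul (f := fun t : ℝ => t⁻¹) cp ha.le hab ?_ ?_
  · rw [h, sum_cp, sum_cp, intervalIntegral.integral_of_le hab, sub_eq_add_neg _ (∫ t in Ioc a b, _),
      ← integral_neg]
    congr 1
    apply setIntegral_congr_fun measurableSet_Ioc
    intro t ht
    simp only
    rw [sum_cp, deriv_inv]
    have : 0 < t := by linarith [ht.1]
    field_simp
  · intro t ht
    have : 0 < t := by linarith [ht.1]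
    exact differentiableAt_inv this.ne'
  · apply ContinuousOn.integrableOn_Icc
    intro t ht
    have : 0 < t := by linarith [ht.1]
    rw [deriv_inv']
    apply ContinuousAt.continuousWithinAt
    fun_prop (disch := positivity)

theorem theta_int {a b : ℝ} (ha : 0 < a) (hb : 0 < b) :
    IntervalIntegrable (fun t : ℝ => Chebyshev.theta t / t ^ 2) volume a b := by
  have h1 : IntervalIntegrable (fun x : ℝ => Chebyshev.theta x) volume a b :=
    Chebyshev.theta_mono.intervalIntegrable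
  have h2 : ContinuousOn (fun x : ℝ => (x ^ 2)⁻¹) (uIcc a b) := by
    intro x hx
    have : 0 < x := lt_of_lt_of_le (lt_min ha hb) hx.1
    apply ContinuousAt.continuousWithinAt
    fun_prop (disch := positivity)
  exact h1.mul_continuousOn h2

theorem block_tendsto : Tendsto (fun a : ℝ =>
    ∑ k ∈ Finset.Ioc ⌊a⌋₊ ⌊Real.exp 1 * a⌋₊, (k:ℝ)⁻¹ * cp k) atTop (𝓝 1) := by
  have he : (1:ℝ) ≤ Real.exp 1 := Real.one_le_exp zero_le_one
  have he0 : 0 < Real.exp 1 := Real.exp_pos 1
  have t1 : Tendsto (fun a : ℝ => (Real.exp 1 * a)⁻¹ * Chebyshev.theta (Real.exp 1 * a)) atTop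
      (𝓝 1) := by
    have := theta_div_tendsto.comp (tendsto_id.const_mul_atTop he0)
    refine this.congr ?_
    intro a
    simp only [Function.comp, id]
    rw [div_eq_inv_mul]
  have t2 : Tendsto (fun a : ℝ => a⁻¹ * Chebyshev.theta a) atTop (𝓝 1) := by
    refine theta_div_tendsto.congr ?_
    intro a
    rw [div_eq_inv_mul]
  have t3 : Tendsto (fun a : ℝ => ∫ t in a..(Real.exp 1 * a), Chebyshev.theta t / t ^ 2) atTop
      (𝓝 1) := by
    rw [Metric.tendsto_nhds]
    intro ε hε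
    have h1 := (Metric.tendsto_nhds.mp theta_div_tendsto) (ε / 3) (by positivity)
    rw [eventually_atTop] at h1
    obtain ⟨N, hN⟩ := h1
    filter_upwards [eventually_ge_atTop N, eventually_gt_atTop 0] with a haN ha
    have hab : a ≤ Real.exp 1 * a := by nlinarith
    have hb : 0 < Real.exp 1 * a := by positivity
    have i1 : ∫ t in a..(Real.exp 1 * a), t⁻¹ = 1 := by
      rw [integral_inv_of_pos ha hb]
      have : Real.exp 1 * a / a = Real.exp 1 := by field_simp
      rw [this, Real.log_exp]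
    have i2 : IntervalIntegrable (fun t : ℝ => t⁻¹) volume a (Real.exp 1 * a) := by
      apply intervalIntegral.intervalIntegrable_inv
      · intro x hx
        have : 0 < x := lt_of_lt_of_le (lt_min ha hb) hx.1
        exact this.ne'
      · exact continuousOn_id
    have e0 : (∫ t in a..(Real.exp 1 * a), Chebyshev.theta t / t ^ 2) - 1 =
        ∫ t in a..(Real.exp 1 * a), (Chebyshev.theta t / t ^ 2 - t⁻¹) := by
      rw [intervalIntegral.integral_sub (theta_int ha hb) i2, i1]
    rw [Real.dist_eq, e0]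
    have h3 := intervalIntegral.norm_integral_le_of_norm_le_const (a := a) (b := Real.exp 1 * a)
      (f := fun t => Chebyshev.theta t / t ^ 2 - t⁻¹) (C := ε / 3 / a) (by
        intro t ht
        rw [uIoc_of_le hab] at ht
        have ht0 : 0 < t := by linarith [ht.1]
        have h4 := hN t (by linarith [ht.1])
        rw [Real.dist_eq] at h4
        have : Chebyshev.theta t / t ^ 2 - t⁻¹ = (Chebyshev.theta t / t - 1) / t := by
          field_simp
        rw [this, Real.norm_eq_abs, abs_div, abs_of_pos ht0]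
        exact div_le_div₀ (by positivity) h4.le ha ht.1.le)
    rw [Real.norm_eq_abs] at h3
    have he3 : Real.exp 1 < 3 := by
      have := Real.exp_one_lt_d9
      linarith
    calc _ ≤ _ := h3
      _ = ε / 3 * (Real.exp 1 - 1) := by
        have : Real.exp 1 * a - a = (Real.exp 1 - 1) * a := by ring
        rw [this, abs_of_nonneg (by nlinarith)]
        field_simp
      _ < ε := by nlinarith
  have := (t1.sub t2).add t3
  rw [sub_self, zero_add] at this
  refine this.congr' ?_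
  filter_upwards [eventually_gt_atTop 0] with a ha
  rw [sum_cp_div ha (by nlinarith)]

/-- `-log(1 - 1/p)` on primes -/
noncomputable def al (n : ℕ) : ℝ := if n.Prime then -Real.log (1 - 1 / n) else 0

theorem neg_log_bounds {x : ℝ} (hx0 : 0 ≤ x) (hx : x ≤ 1 / 2) :
    x ≤ -Real.log (1 - x) ∧ -Real.log (1 - x) ≤ x + 2 * x ^ 2 := by
  have h1 : 0 < 1 - x := by linarith
  constructor
  · have := Real.log_le_sub_one_of_pos h1
    linarith
  · have h2 := Real.one_sub_inv_le_log_of_pos h1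
    have h3 : (1 - x)⁻¹ - 1 = x / (1 - x) := by field_simp; ring
    have h4 : x / (1 - x) ≤ x + 2 * x ^ 2 := by
      rw [div_le_iff₀ h1]
      nlinarith [mul_nonneg hx0 (mul_nonneg hx0 (by linarith : 0 ≤ 1 - 2 * x))]
    linarith

theorem al_nonneg (n : ℕ) : 0 ≤ al n := by
  unfold al
  split_ifs with h
  · have h2 : (2:ℝ) ≤ n := by exact_mod_cast h.two_le
    have h3 : (1:ℝ) / n ≤ 1 / 2 := by gcongr
    exact le_trans (by positivity) (neg_log_bounds (by positivity) h3).1
  · exact le_rfl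

theorem al_lower {n : ℕ} (h : n.Prime) : 1 / (n:ℝ) ≤ al n := by
  unfold al
  rw [if_pos h]
  have h2 : (2:ℝ) ≤ n := by exact_mod_cast h.two_le
  have h3 : (1:ℝ) / n ≤ 1 / 2 := by gcongr
  exact (neg_log_bounds (by positivity) h3).1

theorem al_upper {n : ℕ} (h : n.Prime) : al n ≤ 1 / (n:ℝ) + 2 * (1 / (n:ℝ)) ^ 2 := by
  unfold al
  rw [if_pos h]
  have h2 : (2:ℝ) ≤ n := by exact_mod_cast h.two_le
  have h3 : (1:ℝ) / n ≤ 1 / 2 := by gcongr
  exact (neg_log_bounds (by positivity) h3).2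

/-- block sum over `(e^k, e^(k+1)]` -/
noncomputable def bk (k : ℕ) : ℝ :=
  ∑ n ∈ Finset.Ioc ⌊Real.exp k⌋₊ ⌊Real.exp (k + 1)⌋₊, al n

theorem mem_block {k n : ℕ} (h : n ∈ Finset.Ioc ⌊Real.exp k⌋₊ ⌊Real.exp (k + 1)⌋₊) :
    (k:ℝ) < Real.log n ∧ Real.log n ≤ k + 1 ∧ 0 < n ∧ Real.exp k < n := by
  rw [Finset.mem_Ioc] at h
  have h1 : Real.exp k < n := (Nat.floor_lt (Real.exp_pos _).le).mp h.1
  have h2 : (n:ℝ) ≤ Real.exp (k + 1) := (Nat.le_floor_iff (Real.exp_pos _).le).mp h.2
  have h0 : (0:ℝ) < n := lt_trans (Real.exp_pos _) h1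
  refine ⟨(Real.lt_log_iff_exp_lt h0).mpr h1, (Real.log_le_iff_le_exp h0).mpr h2, ?_, h1⟩
  exact_mod_cast h0

theorem bk_nonneg (k : ℕ) : 0 ≤ bk k := Finset.sum_nonneg (fun n _ => al_nonneg n)

theorem bk_tendsto : Tendsto (fun k : ℕ => ((k:ℝ) + 1) * bk k) atTop (𝓝 1) := by
  set S : ℕ → ℝ := fun k => ∑ n ∈ Finset.Ioc ⌊Real.exp k⌋₊ ⌊Real.exp (k + 1)⌋₊, (n:ℝ)⁻¹ * cp n
    with hS
  have hexp : Tendsto (fun k : ℕ => Real.exp (k:ℝ)) atTop atTop :=
    Real.tendsto_exp_atTop.comp tendsto_natCast_atTop_atTop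
  have hSt : Tendsto S atTop (𝓝 1) := by
    have := block_tendsto.comp hexp
    refine this.congr ?_
    intro k
    simp only [Function.comp, hS]
    rw [← Real.exp_add, add_comm 1 (k:ℝ)]
  have hlow : ∀ k : ℕ, S k ≤ (k + 1) * bk k := by
    intro k
    rw [hS, bk, Finset.mul_sum]
    apply Finset.sum_le_sum
    intro n hn
    obtain ⟨h1, h2, h3, h4⟩ := mem_block hn
    unfold cp
    split_ifs with hp
    · have h5 := al_lower hp
      have h6 : (0:ℝ) < n := by exact_mod_cast h3
      calc (n:ℝ)⁻¹ * Real.log n ≤ (n:ℝ)⁻¹ * (k + 1) := by gcongr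
        _ = (k + 1) * (1 / n) := by ring
        _ ≤ (k + 1) * al n := by gcongr
    · rw [mul_zero]
      have := al_nonneg n
      positivity
  have hup : ∀ k : ℕ, 0 < k → (k + 1) * bk k ≤ (1 + 2 * (Real.exp k)⁻¹) * ((k + 1) / k) * S k := by
    intro k hk
    have hk0 : (0:ℝ) < k := by exact_mod_cast hk
    rw [hS, bk, Finset.mul_sum, Finset.mul_sum]
    apply Finset.sum_le_sum
    intro n hn
    obtain ⟨h1, h2, h3, h4⟩ := mem_block hn
    have h6 : (0:ℝ) < n := by exact_mod_cast h3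
    unfold cp
    split_ifs with hp
    · have h5 := al_upper hp
      have h7 : (1:ℝ) / n ≤ (Real.exp k)⁻¹ := by
        rw [one_div]
        exact inv_anti₀ (Real.exp_pos _) h4.le
      have h8 : al n ≤ (1 + 2 * (Real.exp k)⁻¹) * (1 / n) := by
        calc al n ≤ 1 / (n:ℝ) + 2 * (1 / (n:ℝ)) ^ 2 := h5
          _ = (1 + 2 * (1 / n)) * (1 / n) := by ring
          _ ≤ _ := by gcongr
      calc (k + 1) * al n ≤ (k + 1) * ((1 + 2 * (Real.exp k)⁻¹) * (1 / n)) := by gcongr
        _ = (1 + 2 * (Real.exp k)⁻¹) * ((k + 1) / k) * ((n:ℝ)⁻¹ * k) := by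
          field_simp
        _ ≤ _ := by gcongr
    · unfold al
      rw [if_neg hp]
      simp
  have hfac : Tendsto (fun k : ℕ => (1 + 2 * (Real.exp k)⁻¹) * (((k:ℝ) + 1) / k) * S k) atTop
      (𝓝 1) := by
    have h1 : Tendsto (fun k : ℕ => (1 + 2 * (Real.exp (k:ℝ))⁻¹)) atTop (𝓝 (1 + 2 * 0)) :=
      tendsto_const_nhds.add (hexp.inv_tendsto_atTop.const_mul 2)
    have h2 : Tendsto (fun k : ℕ => (((k:ℝ) + 1) / k)) atTop (𝓝 1) := by
      have := (tendsto_const_nhds (x := (1:ℝ))).add (tendsto_const_div_atTop_nhds_zero_nat 1)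
      rw [add_zero] at this
      refine this.congr' ?_
      filter_upwards [eventually_gt_atTop 0] with k hk
      have hk0 : (0:ℝ) < k := by exact_mod_cast hk
      field_simp
    have := (h1.mul h2).mul hSt
    simpa using this
  refine tendsto_of_tendsto_of_tendsto_of_le_of_le' hSt hfac (Eventually.of_forall hlow) ?_
  filter_upwards [eventually_gt_atTop 0] with k hk using hup k hk

end Helper56
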