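import Mathlib
import Pool.Agent.Helper56.Block

set_option maxHeartbeats 4000000

open MeasureTheory Set Filter Topology

namespace Helper56

/-- logarithm of the Euler factor at a prime `n` -/
noncomputable def Fs (s : ℝ) (n : ℕ) : ℝ := if n.Prime then -Real.log (1 - (n:ℝ) ^ (-s)) else 0

theorem rpow_neg_le_half {s : ℝ} (hs : 1 ≤ s) {n : ℕ} (hn : n.Prime) :
    0 ≤ (n:ℝ) ^ (-s) ∧ (n:ℝ) ^ (-s) ≤ 1 / n ∧ (1:ℝ) / n ≤ 1 / 2 := by
  have h2 : (2:ℝ) ≤ n := by exact_mod_cast hn.two_le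
  refine ⟨by positivity, ?_, by gcongr⟩
  rw [one_div, ← Real.rpow_neg_one]
  exact Real.rpow_le_rpow_of_exponent_le (by linarith) (by linarith)

theorem Fs_bounds {s : ℝ} (hs : 1 ≤ s) {n : ℕ} (hn : n.Prime) :
    (n:ℝ) ^ (-s) ≤ Fs s n ∧ Fs s n ≤ (n:ℝ) ^ (-s) + 2 * ((n:ℝ) ^ (-s)) ^ 2 := by
  obtain ⟨h1, h2, h3⟩ := rpow_neg_le_half hs hn
  unfold Fs
  rw [if_pos hn]
  exact neg_log_bounds h1 (le_trans h2 h3)

theorem Fs_nonneg {s : ℝ} (hs : 1 ≤ s) (n : ℕ) : 0 ≤ Fs s n := by
  by_cases hn : n.Prime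
  · exact le_trans (rpow_neg_le_half hs hn).1 (Fs_bounds hs hn).1
  · unfold Fs; rw [if_neg hn]

theorem Fs_summable {s : ℝ} (hs : 1 < s) : Summable (Fs s) := by
  have h1 : Summable (fun n : ℕ => 2 * (n:ℝ) ^ (-s)) :=
    (Real.summable_nat_rpow.mpr (by linarith)).mul_left 2
  apply Summable.of_nonneg_of_le (fun n => Fs_nonneg hs.le n) _ h1
  intro n
  by_cases hn : n.Prime
  · have h2 := (Fs_bounds hs.le hn).2
    obtain ⟨h3, h4, h5⟩ := rpow_neg_le_half hs.le hn
    nlinarith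
  · unfold Fs; rw [if_neg hn]; positivity

theorem exp_tsum_Fs {s : ℝ} (hs : 1 < s) :
    ((Real.exp (∑' n, Fs s n) : ℝ) : ℂ) = riemannZeta s := by
  have h := riemannZeta_eulerProduct_exp_log (s := (s:ℂ)) (by simpa using hs)
  rw [← h, Complex.ofReal_exp, Complex.ofReal_tsum]
  congr 1
  have h1 : ∀ p : Nat.Primes, -Complex.log (1 - (p:ℂ) ^ (-(s:ℂ))) = ((Fs s p : ℝ) : ℂ) := by
    intro p
    unfold Fs
    rw [if_pos p.2]
    obtain ⟨h3, h4, h5⟩ := rpow_neg_le_half hs.le p.2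
    rw [Complex.ofReal_neg, Complex.ofReal_log (by linarith), Complex.ofReal_sub,
      Complex.ofReal_cpow (by positivity)]
    push_cast
    rfl
  rw [tsum_congr h1]
  have h2 := tsum_subtype {p : ℕ | p.Prime} (fun n => ((Fs s n : ℝ) : ℂ))
  have h3 : ∀ n : ℕ, ({p : ℕ | p.Prime}.indicator (fun n => ((Fs s n : ℝ) : ℂ)) n) =
      ((Fs s n : ℝ) : ℂ) := by
    intro n
    by_cases hn : n.Prime
    · rw [indicator_of_mem]; exact hn
    · rw [indicator_of_notMem]
      · unfold Fs; rw [if_neg hn]; simp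
      · exact hn
  rw [tsum_congr h3] at h2
  rw [← h2]
  rfl

theorem eps_mul_exp_tendsto :
    Tendsto (fun ε : ℝ => ε * Real.exp (∑' n, Fs (1 + ε) n)) (𝓝[>] 0) (𝓝 1) := by
  have h1 : Tendsto (fun ε : ℝ => ((1 + ε : ℝ) : ℂ)) (𝓝[>] 0) (𝓝[≠] 1) := by
    apply tendsto_nhdsWithin_iff.mpr
    refine ⟨?_, ?_⟩
    · apply tendsto_nhdsWithin_of_tendsto_nhds
      have : Continuous (fun ε : ℝ => ((1 + ε : ℝ) : ℂ)) := by fun_prop
      have h2 := this.tendsto 0
      simpa using h2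
    · filter_upwards [self_mem_nhdsWithin] with ε hε
      have hε' : (0:ℝ) < ε := hε
      simp only [mem_compl_iff, mem_singleton_iff]
      intro h
      have : (1 + ε : ℝ) = 1 := by exact_mod_cast h
      linarith
  have h2 := riemannZeta_residue_one.comp h1
  have h3 := (Complex.continuous_re.tendsto _).comp h2
  rw [Complex.one_re] at h3
  refine h3.congr' ?_
  filter_upwards [self_mem_nhdsWithin] with ε hε
  have hε' : (0:ℝ) < ε := hε
  simp only [Function.comp]
  rw [← exp_tsum_Fs (by linarith : 1 < 1 + ε)]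
  have : ((1 + ε : ℝ) : ℂ) - 1 = (ε : ℂ) := by push_cast; ring
  rw [this, ← Complex.ofReal_mul, Complex.ofReal_re]

theorem log_add_tsum_Fs_tendsto :
    Tendsto (fun ε : ℝ => (∑' n, Fs (1 + ε) n) + Real.log ε) (𝓝[>] 0) (𝓝 0) := by
  have h1 := (Real.continuousAt_log one_ne_zero).tendsto.comp eps_mul_exp_tendsto
  rw [Real.log_one] at h1
  refine h1.congr' ?_
  filter_upwards [self_mem_nhdsWithin] with ε hε
  have hε' : (0:ℝ) < ε := hε
  simp only [Function.comp]
  rw [Real.log_mul hε'.ne' (Real.exp_pos _).ne', Real.log_exp]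
  ring

noncomputable def Gs (ε : ℝ) (n : ℕ) : ℝ := al n * (n:ℝ) ^ (-ε)

noncomputable def Ds (ε : ℝ) (n : ℕ) : ℝ := al n * Real.exp (-ε * ⌈Real.log n⌉₊)

theorem Gs_sub_Fs_bound {ε : ℝ} (hε : 0 ≤ ε) (n : ℕ) :
    ‖Gs ε n - Fs (1 + ε) n‖ ≤ 2 * (1 / (n:ℝ) ^ 2) := by
  by_cases hn : n.Prime
  · have h2 : (2:ℝ) ≤ n := by exact_mod_cast hn.two_le
    have hn0 : (0:ℝ) < n := by linarith
    obtain ⟨h3, h4, h5⟩ := rpow_neg_le_half (s := 1 + ε) (by linarith) hn
    obtain ⟨h6, h7⟩ := Fs_bounds (s := 1 + ε) (by linarith) hn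
    have h8 := al_lower hn
    have h9 := al_upper hn
    have e1 : (n:ℝ) ^ (-(1 + ε)) = 1 / n * (n:ℝ) ^ (-ε) := by
      rw [one_div, ← Real.rpow_neg_one, ← Real.rpow_add hn0]
      congr 1; ring
    have h10 : 0 < (n:ℝ) ^ (-ε) := Real.rpow_pos_of_pos hn0 _
    have h11 : (n:ℝ) ^ (-ε) ≤ 1 := Real.rpow_le_one_of_one_le_of_nonpos (by linarith) (by linarith)
    rw [e1] at h6 h7
    unfold Gs
    set y := (n:ℝ) ^ (-ε)
    set x := 1 / (n:ℝ) with hx
    have hx0 : 0 < x := by positivity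
    have e2 : 2 * (1 / (n:ℝ) ^ 2) = 2 * x ^ 2 := by rw [hx]; field_simp
    rw [e2, Real.norm_eq_abs, abs_le]
    have k1 : x * y ≤ al n * y := by gcongr
    have k2 : al n * y ≤ (x + 2 * x ^ 2) * y := by gcongr
    have k3 : x ^ 2 * y ≤ x ^ 2 * 1 := by gcongr
    have k4 : x ^ 2 * y ^ 2 ≤ x ^ 2 * 1 := by
      apply mul_le_mul_of_nonneg_left _ (by positivity)
      exact pow_le_one₀ h10.le h11
    constructor <;> nlinarith
  · unfold Gs Fs al
    rw [if_neg hn, if_neg hn]
    simp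

theorem summable_bound : Summable (fun n : ℕ => 2 * (1 / (n:ℝ) ^ 2)) :=
  (Real.summable_one_div_nat_pow.mpr (by norm_num)).mul_left 2

theorem Gs_sub_Fs_summable {ε : ℝ} (hε : 0 ≤ ε) :
    Summable (fun n => Gs ε n - Fs (1 + ε) n) :=
  Summable.of_norm_bounded summable_bound (Gs_sub_Fs_bound hε)

theorem Gs_summable {ε : ℝ} (hε : 0 < ε) : Summable (Gs ε) := by
  have := (Gs_sub_Fs_summable hε.le).add (Fs_summable (s := 1 + ε) (by linarith))
  refine this.congr ?_
  intro n; ring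

theorem Gs_sub_Fs_tendsto :
    Tendsto (fun ε : ℝ => ∑' n, (Gs ε n - Fs (1 + ε) n)) (𝓝[>] 0) (𝓝 0) := by
  have : Tendsto (fun ε : ℝ => ∑' n, (Gs ε n - Fs (1 + ε) n)) (𝓝[>] 0) (𝓝 (∑' _ : ℕ, (0:ℝ))) := by
    apply tendsto_tsum_of_dominated_convergence summable_bound
    · intro n
      apply tendsto_nhdsWithin_of_tendsto_nhds
      by_cases hn : n.Prime
      · have h2 : (2:ℝ) ≤ n := by exact_mod_cast hn.two_le
        have hn0 : (0:ℝ) < n := by linarith
        have c1 : ContinuousAt (fun ε : ℝ => Gs ε n - Fs (1 + ε) n) 0 := by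
          have e0 : (fun ε : ℝ => Gs ε n - Fs (1 + ε) n) =
              fun ε : ℝ => al n * (n:ℝ) ^ (-ε) - -Real.log (1 - (n:ℝ) ^ (-(1 + ε))) := by
            ext ε
            unfold Gs Fs
            rw [if_pos hn]
          rw [e0]
          have c2 : ContinuousAt (fun ε : ℝ => (n:ℝ) ^ (-ε)) 0 := by
            apply ContinuousAt.rpow continuousAt_const continuousAt_neg
            left; exact hn0.ne'
          have c3 : ContinuousAt (fun ε : ℝ => (n:ℝ) ^ (-(1 + ε))) 0 := by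
            apply ContinuousAt.rpow continuousAt_const (by fun_prop)
            left; exact hn0.ne'
          apply ContinuousAt.sub (continuousAt_const.mul c2)
          apply ContinuousAt.neg
          apply ContinuousAt.log (continuousAt_const.sub c3)
          obtain ⟨h3, h4, h5⟩ := rpow_neg_le_half (s := 1 + 0) (by linarith) hn
          exact (sub_pos.mpr (lt_of_le_of_lt (le_trans h4 h5) (by norm_num))).ne'
        have h3 := c1.tendsto
        have e : Gs 0 n - Fs (1 + 0) n = 0 := by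
          unfold Gs Fs al
          rw [if_pos hn, if_pos hn]
          have : -(1 + 0 : ℝ) = -1 := by ring
          rw [this, Real.rpow_neg_one, neg_zero, Real.rpow_zero, one_div]
          ring
        rw [e] at h3
        exact h3
      · have : (fun ε : ℝ => Gs ε n - Fs (1 + ε) n) = fun _ => 0 := by
          ext ε
          unfold Gs Fs al
          rw [if_neg hn, if_neg hn]
          simp
        rw [this]
        exact tendsto_const_nhds
    · filter_upwards [self_mem_nhdsWithin] with ε hε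
      have hε' : (0:ℝ) < ε := hε
      intro n
      exact Gs_sub_Fs_bound hε'.le n
  rwa [tsum_zero] at this

theorem tsum_Gs_tendsto :
    Tendsto (fun ε : ℝ => (∑' n, Gs ε n) + Real.log ε) (𝓝[>] 0) (𝓝 0) := by
  have h := Gs_sub_Fs_tendsto.add log_add_tsum_Fs_tendsto
  rw [zero_add] at h
  refine h.congr' ?_
  filter_upwards [self_mem_nhdsWithin] with ε hε
  have hε' : (0:ℝ) < ε := hε
  rw [(Gs_summable hε').tsum_sub (Fs_summable (by linarith))]
  ring

theorem Ds_bounds {ε : ℝ} (hε : 0 ≤ ε) (n : ℕ) :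
    (1 - ε) * Gs ε n ≤ Ds ε n ∧ Ds ε n ≤ Gs ε n := by
  by_cases hn : n.Prime
  · have h2 : (2:ℝ) ≤ n := by exact_mod_cast hn.two_le
    have hn0 : (0:ℝ) < n := by linarith
    have hl : 0 ≤ Real.log n := Real.log_nonneg (by linarith)
    have h3 : Real.log n ≤ ⌈Real.log n⌉₊ := Nat.le_ceil _
    have h4 : (⌈Real.log n⌉₊ : ℝ) < Real.log n + 1 := Nat.ceil_lt_add_one hl
    have hal := al_nonneg n
    unfold Gs Ds
    have e1 : (n:ℝ) ^ (-ε) = Real.exp (-ε * Real.log n) := by
      rw [Real.rpow_def_of_pos hn0]; congr 1; ring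
    rw [e1]
    constructor
    · have h5 : (1 - ε) * Real.exp (-ε * Real.log n) ≤ Real.exp (-ε * ⌈Real.log n⌉₊) := by
        calc (1 - ε) * Real.exp (-ε * Real.log n) ≤ Real.exp (-ε) * Real.exp (-ε * Real.log n) := by
              have := Real.add_one_le_exp (-ε)
              gcongr
              linarith
          _ = Real.exp (-ε * (Real.log n + 1)) := by rw [← Real.exp_add]; congr 1; ring
          _ ≤ _ := by
              apply Real.exp_le_exp.mpr
              nlinarith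
      calc (1 - ε) * (al n * Real.exp (-ε * Real.log n))
          = al n * ((1 - ε) * Real.exp (-ε * Real.log n)) := by ring
        _ ≤ _ := by gcongr
    · apply mul_le_mul_of_nonneg_left _ hal
      apply Real.exp_le_exp.mpr
      nlinarith
  · unfold Gs Ds al
    rw [if_neg hn]
    simp

theorem Ds_nonneg (ε : ℝ) (n : ℕ) : 0 ≤ Ds ε n := by
  unfold Ds
  exact mul_nonneg (al_nonneg n) (Real.exp_pos _).le

theorem Ds_summable {ε : ℝ} (hε : 0 < ε) : Summable (Ds ε) :=
  Summable.of_nonneg_of_le (Ds_nonneg ε) (fun n => (Ds_bounds hε.le n).2) (Gs_summable hε)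

theorem tsum_Ds_tendsto :
    Tendsto (fun ε : ℝ => (∑' n, Ds ε n) + Real.log ε) (𝓝[>] 0) (𝓝 0) := by
  -- ε * ∑ G → 0
  have h0 : Tendsto (fun ε : ℝ => ε) (𝓝[>] 0) (𝓝 0) :=
    tendsto_nhdsWithin_of_tendsto_nhds tendsto_id
  have h1 : Tendsto (fun ε : ℝ => ε * ∑' n, Gs ε n) (𝓝[>] 0) (𝓝 0) := by
    have h2 := h0.mul tsum_Gs_tendsto
    have h3 : Tendsto (fun ε : ℝ => Real.log ε * ε) (𝓝[>] 0) (𝓝 0) := by
      have := tendsto_log_mul_rpow_nhdsGT_zero (r := 1) one_pos
      simpa using this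
    have := h2.sub h3
    rw [mul_zero, sub_zero] at this
    refine this.congr ?_
    intro ε; ring
  have hlow : Tendsto (fun ε : ℝ => ((∑' n, Gs ε n) + Real.log ε) - ε * ∑' n, Gs ε n) (𝓝[>] 0)
      (𝓝 0) := by
    have := tsum_Gs_tendsto.sub h1
    rwa [sub_zero] at this
  refine tendsto_of_tendsto_of_tendsto_of_le_of_le' hlow tsum_Gs_tendsto ?_ ?_
  · filter_upwards [self_mem_nhdsWithin] with ε hε
    have hε' : (0:ℝ) < ε := hε
    have h5 : (1 - ε) * ∑' n, Gs ε n ≤ ∑' n, Ds ε n := by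
      rw [← tsum_mul_left]
      exact ((Gs_summable hε').mul_left _).tsum_le_tsum (fun n => (Ds_bounds hε'.le n).1)
        (Ds_summable hε')
    linarith
  · filter_upwards [self_mem_nhdsWithin] with ε hε
    have hε' : (0:ℝ) < ε := hε
    have h5 : ∑' n, Ds ε n ≤ ∑' n, Gs ε n :=
      (Ds_summable hε').tsum_le_tsum (fun n => (Ds_bounds hε'.le n).2) (Gs_summable hε')
    linarith

theorem log_one_sub_exp_tendsto :
    Tendsto (fun ε : ℝ => Real.log (1 - Real.exp (-ε)) - Real.log ε) (𝓝[>] 0) (𝓝 0) := by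
  have h1 : Tendsto (fun ε : ℝ => (1 - Real.exp (-ε)) / ε) (𝓝[>] 0) (𝓝 1) := by
    have hd : HasDerivAt (fun ε : ℝ => 1 - Real.exp (-ε)) 1 0 := by
      have := ((hasDerivAt_neg (0:ℝ)).exp).const_sub 1
      simpa using this
    have h2 := hd.tendsto_slope
    have h3 : Tendsto (slope (fun ε : ℝ => 1 - Real.exp (-ε)) 0) (𝓝[>] 0) (𝓝 1) :=
      h2.mono_left (nhdsWithin_mono _ (fun x hx => ne_of_gt hx))
    refine h3.congr ?_
    intro ε
    rw [slope_def_field]
    simp
  have h2 := (Real.continuousAt_log one_ne_zero).tendsto.comp h1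
  rw [Real.log_one] at h2
  refine h2.congr' ?_
  filter_upwards [self_mem_nhdsWithin] with ε hε
  have hε' : (0:ℝ) < ε := hε
  simp only [Function.comp]
  have : 0 < 1 - Real.exp (-ε) := by
    have : Real.exp (-ε) < 1 := Real.exp_lt_one_iff.mpr (by linarith)
    linarith
  rw [Real.log_div this.ne' hε'.ne']

/-- regrouping in blocks -/
theorem hasSum_blocks {ε : ℝ} (hε : 0 < ε) :
    HasSum (fun k : ℕ => bk k * Real.exp (-ε * (k + 1))) (∑' n, Ds ε n) := by
  rw [hasSum_iff_tendsto_nat_of_nonneg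
    (fun k => mul_nonneg (bk_nonneg k) (Real.exp_pos _).le)]
  have h1 := (Ds_summable hε).hasSum.tendsto_sum_nat
  have h2 : Tendsto (fun K : ℕ => ⌊Real.exp K⌋₊ + 1) atTop atTop := by
    have h3 : Tendsto (fun K : ℕ => ⌊Real.exp K⌋₊) atTop atTop :=
      tendsto_nat_floor_atTop.comp (Real.tendsto_exp_atTop.comp tendsto_natCast_atTop_atTop)
    exact tendsto_atTop_mono (fun K => Nat.le_succ _) h3
  refine (h1.comp h2).congr ?_
  intro K
  simp only [Function.comp]
  induction K with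
  | zero =>
    simp only [Nat.cast_zero, Real.exp_zero, Nat.floor_one, Finset.range_zero, Finset.sum_empty]
    rw [Finset.sum_range_succ, Finset.sum_range_succ, Finset.sum_range_zero]
    unfold Ds al
    rw [if_neg Nat.not_prime_zero, if_neg Nat.not_prime_one]
    simp
  | succ K ih =>
    rw [Finset.sum_range_succ _ K, ← ih]
    have hmono : ⌊Real.exp (K:ℝ)⌋₊ ≤ ⌊Real.exp ((K:ℝ) + 1)⌋₊ :=
      Nat.floor_mono (Real.exp_le_exp.mpr (by linarith))
    have e1 : Finset.range (⌊Real.exp ((K + 1 : ℕ) : ℝ)⌋₊ + 1) =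
        Finset.range (⌊Real.exp (K:ℝ)⌋₊ + 1) ∪
          Finset.Ioc ⌊Real.exp (K:ℝ)⌋₊ ⌊Real.exp ((K:ℝ) + 1)⌋₊ := by
      ext n
      simp only [Finset.mem_range, Finset.mem_union, Finset.mem_Ioc]
      push_cast
      omega
    rw [e1, Finset.sum_union]
    · congr 1
      unfold bk
      rw [Finset.sum_mul]
      apply Finset.sum_congr rfl
      intro n hn
      obtain ⟨h3, h4, h5, h6⟩ := mem_block hn
      unfold Ds
      congr 3
      have : ⌈Real.log n⌉₊ = K + 1 := by
        rw [Nat.ceil_eq_iff (by omega)]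
        constructor
        · simpa using h3
        · push_cast; exact h4
      rw [this]
      push_cast
      ring
    · rw [Finset.disjoint_left]
      intro n h1 h2
      rw [Finset.mem_range] at h1
      rw [Finset.mem_Ioc] at h2
      omega

end Helper56
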