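import Mathlib
import Pool.Agent.Helper56.ZetaSum
import Pool.Agent.Helper56.Tauber
import Pool.Agent.Helper56.PrimeAsymp

set_option maxHeartbeats 4000000

open MeasureTheory Set Filter Topology

namespace Helper56

/-- difference coefficients -/
noncomputable def dk (k : ℕ) : ℝ := if k = 0 then 0 else bk (k - 1) - 1 / k

theorem dk_succ (k : ℕ) : dk (k + 1) = bk k - 1 / (k + 1) := by
  unfold dk
  rw [if_neg (by omega)]
  push_cast
  rfl

theorem dk_zero : dk 0 = 0 := by unfold dk; rw [if_pos rfl]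

theorem k_dk_tendsto : Tendsto (fun k : ℕ => (k:ℝ) * dk k) atTop (𝓝 0) := by
  rw [← tendsto_add_atTop_iff_nat 1]
  have := bk_tendsto.sub_const 1
  rw [sub_self] at this
  refine this.congr ?_
  intro k
  rw [dk_succ]
  push_cast
  have : (k:ℝ) + 1 ≠ 0 := by positivity
  field_simp

theorem hasSum_dk {x : ℝ} (hx0 : 0 < x) (hx1 : x < 1) :
    HasSum (fun k : ℕ => dk k * x ^ k) ((∑' n, Ds (-Real.log x) n) + Real.log (1 - x)) := by
  have hε : 0 < -Real.log x := by
    have := Real.log_neg hx0 hx1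
    linarith
  have h1 := hasSum_blocks hε
  have h2 := Real.hasSum_pow_div_log_of_abs_lt_one (x := x) (by rw [abs_lt]; constructor <;> linarith)
  have h3 := h1.sub h2
  rw [sub_neg_eq_add] at h3
  rw [← hasSum_nat_add_iff' 1]
  simp only [Finset.range_one, Finset.sum_singleton, pow_zero, mul_one, dk_zero, sub_zero]
  have h4 : ∀ k : ℕ, dk (k + 1) * x ^ (k + 1) =
      bk k * Real.exp (- -Real.log x * (k + 1)) - x ^ (k + 1) / (k + 1) := by
    intro k
    rw [dk_succ]
    have : Real.exp (- -Real.log x * (k + 1)) = x ^ (k + 1) := by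
      have e : - -Real.log x * ((k:ℝ) + 1) = ((k + 1 : ℕ) : ℝ) * Real.log x := by push_cast; ring
      rw [e, Real.exp_nat_mul, Real.exp_log hx0]
    rw [this]
    ring
  rw [show (fun k : ℕ => dk (k + 1) * x ^ (k + 1)) = _ from funext h4]
  exact h3

theorem neg_log_tendsto : Tendsto (fun x : ℝ => -Real.log x) (𝓝[<] 1) (𝓝[>] 0) := by
  apply tendsto_nhdsWithin_iff.mpr
  refine ⟨?_, ?_⟩
  · apply tendsto_nhdsWithin_of_tendsto_nhds
    have := (Real.continuousAt_log one_ne_zero).tendsto.neg
    rwa [Real.log_one, neg_zero] at this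
  · have h1 : ∀ᶠ x : ℝ in 𝓝[<] 1, 0 < x := by
      apply nhdsWithin_le_nhds
      exact lt_mem_nhds one_pos
    filter_upwards [self_mem_nhdsWithin, h1] with x hx hx0
    have := Real.log_neg hx0 hx
    simp only [mem_Ioi]
    linarith

theorem tsum_dk_tendsto : Tendsto (fun x : ℝ => ∑' k, dk k * x ^ k) (𝓝[<] 1) (𝓝 0) := by
  have h1 : Tendsto (fun ε : ℝ => (∑' n, Ds ε n) + Real.log (1 - Real.exp (-ε))) (𝓝[>] 0)
      (𝓝 0) := by
    have := tsum_Ds_tendsto.add log_one_sub_exp_tendsto
    rw [zero_add] at this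
    refine this.congr ?_
    intro ε; ring
  have h2 := h1.comp neg_log_tendsto
  refine h2.congr' ?_
  have h3 : ∀ᶠ x : ℝ in 𝓝[<] 1, 0 < x := by
    apply nhdsWithin_le_nhds
    exact lt_mem_nhds one_pos
  filter_upwards [self_mem_nhdsWithin, h3] with x hx hx0
  have hx1 : x < 1 := hx
  simp only [Function.comp]
  rw [(hasSum_dk hx0 hx1).tsum_eq, neg_neg, Real.exp_log hx0]

theorem sum_dk_tendsto : Tendsto (fun n => ∑ k ∈ Finset.range n, dk k) atTop (𝓝 0) :=
  tauber k_dk_tendsto tsum_dk_tendsto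

theorem sum_bk_sub_log_tendsto :
    Tendsto (fun n : ℕ => (∑ k ∈ Finset.range n, bk k) - Real.log n) atTop
      (𝓝 Real.eulerMascheroniConstant) := by
  have h1 : Tendsto (fun n : ℕ => ∑ k ∈ Finset.range (n + 1), dk k) atTop (𝓝 0) :=
    sum_dk_tendsto.comp (tendsto_add_atTop_nat 1)
  have h2 := h1.add Real.tendsto_harmonic_sub_log
  rw [zero_add] at h2
  refine h2.congr ?_
  intro n
  rw [Finset.sum_range_succ', dk_zero, add_zero]
  have e : ∑ k ∈ Finset.range n, dk (k + 1) =
      (∑ k ∈ Finset.range n, bk k) - (harmonic n : ℝ) := by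
    unfold harmonic
    push_cast
    rw [← Finset.sum_sub_distrib]
    apply Finset.sum_congr rfl
    intro k _
    rw [dk_succ, one_div]
  rw [e]
  ring

/-- `∑_{p ≤ x} -log(1 - 1/p)` -/
noncomputable def ax (x : ℝ) : ℝ := ∑ n ∈ Finset.Ioc 0 ⌊x⌋₊, al n

theorem ax_mono : Monotone ax := by
  intro x y hxy
  unfold ax
  apply Finset.sum_le_sum_of_subset_of_nonneg
  · apply Finset.Ioc_subset_Ioc_right
    exact Nat.floor_mono hxy
  · intro i _ _
    exact al_nonneg i

theorem ax_exp (n : ℕ) : ax (Real.exp n) = ∑ k ∈ Finset.range n, bk k := by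
  induction n with
  | zero =>
    unfold ax
    simp only [Nat.cast_zero, Real.exp_zero, Nat.floor_one, Finset.range_zero, Finset.sum_empty]
    rw [show Finset.Ioc 0 1 = {1} from rfl, Finset.sum_singleton]
    unfold al
    rw [if_neg Nat.not_prime_one]
  | succ K ih =>
    rw [Finset.sum_range_succ, ← ih]
    unfold ax bk
    push_cast
    rw [Finset.sum_Ioc_consecutive _ (Nat.zero_le _)
      (Nat.floor_mono (Real.exp_le_exp.mpr (by linarith)))]

/-- Mertens' third theorem, logarithmic form. -/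
theorem ax_sub_loglog_tendsto :
    Tendsto (fun x : ℝ => ax x - Real.log (Real.log x)) atTop
      (𝓝 Real.eulerMascheroniConstant) := by
  set u : ℕ → ℝ := fun n => (∑ k ∈ Finset.range n, bk k) - Real.log n with hu
  have hfl : Tendsto (fun x : ℝ => ⌊Real.log x⌋₊) atTop atTop :=
    tendsto_nat_floor_atTop.comp Real.tendsto_log_atTop
  have hlogd : Tendsto (fun n : ℕ => Real.log ((n + 1 : ℕ) : ℝ) - Real.log n) atTop (𝓝 0) := by
    have h1 : Tendsto (fun n : ℕ => (((n + 1 : ℕ) : ℝ) / n)) atTop (𝓝 1) := by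
      have := (tendsto_const_nhds (x := (1:ℝ))).add (tendsto_const_div_atTop_nhds_zero_nat 1)
      rw [add_zero] at this
      refine this.congr' ?_
      filter_upwards [eventually_gt_atTop 0] with k hk
      have hk0 : (0:ℝ) < k := by exact_mod_cast hk
      push_cast
      field_simp
    have h2 := (Real.continuousAt_log one_ne_zero).tendsto.comp h1
    rw [Real.log_one] at h2
    refine h2.congr' ?_
    filter_upwards [eventually_gt_atTop 0] with k hk
    have hk0 : (0:ℝ) < k := by exact_mod_cast hk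
    simp only [Function.comp]
    rw [Real.log_div (by positivity) (by positivity)]
  have hlow : Tendsto (fun n : ℕ => u n - (Real.log ((n + 1 : ℕ) : ℝ) - Real.log n)) atTop
      (𝓝 Real.eulerMascheroniConstant) := by
    have := sum_bk_sub_log_tendsto.sub hlogd
    rwa [sub_zero] at this
  have hup : Tendsto (fun n : ℕ => u (n + 1) + (Real.log ((n + 1 : ℕ) : ℝ) - Real.log n)) atTop
      (𝓝 Real.eulerMascheroniConstant) := by
    have := (sum_bk_sub_log_tendsto.comp (tendsto_add_atTop_nat 1)).add hlogd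
    rwa [add_zero] at this
  refine tendsto_of_tendsto_of_tendsto_of_le_of_le' (hlow.comp hfl) (hup.comp hfl) ?_ ?_
  · filter_upwards [Real.tendsto_log_atTop.eventually_ge_atTop 1, eventually_gt_atTop 0] with x hx hx0
    simp only [Function.comp, hu]
    set n := ⌊Real.log x⌋₊ with hn
    have hn1 : (n:ℝ) ≤ Real.log x := Nat.floor_le (by linarith)
    have hn2 : Real.log x < n + 1 := Nat.lt_floor_add_one _
    have h1 : Real.exp n ≤ x := (Real.le_log_iff_exp_le hx0).mp hn1
    have h2 := ax_mono h1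
    rw [ax_exp] at h2
    have h3 : Real.log (Real.log x) ≤ Real.log ((n + 1 : ℕ) : ℝ) := by
      apply Real.log_le_log (by linarith)
      push_cast; exact hn2.le
    linarith
  · filter_upwards [Real.tendsto_log_atTop.eventually_ge_atTop 1, eventually_gt_atTop 0] with x hx hx0
    simp only [Function.comp, hu]
    set n := ⌊Real.log x⌋₊ with hn
    have hn1 : (n:ℝ) ≤ Real.log x := Nat.floor_le (by linarith)
    have hn2 : Real.log x < n + 1 := Nat.lt_floor_add_one _
    have hnpos : 1 ≤ n := by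
      rw [hn]; exact Nat.le_floor (by simpa using hx)
    have hn0 : (0:ℝ) < n := by exact_mod_cast hnpos
    have h1 : x ≤ Real.exp ((n + 1 : ℕ) : ℝ) := by
      apply le_of_lt
      rw [← Real.log_lt_iff_lt_exp hx0]
      push_cast; exact hn2
    have h2 := ax_mono h1
    rw [ax_exp] at h2
    have h3 : Real.log n ≤ Real.log (Real.log x) := Real.log_le_log hn0 hn1
    linarith

/-- Mertens' third theorem along the primes: `∏_{k<n} (1 - 1/p_k)^{-1} / log n → e^γ`. -/
theorem prod_nth_eq (n : ℕ) :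
    ∏ k ∈ Finset.range (n + 1), (1 - 1 / (Nat.nth Nat.Prime k : ℝ))⁻¹ =
      Real.exp (ax (Nat.nth Nat.Prime n : ℝ)) := by
  have h1 : ax (Nat.nth Nat.Prime n : ℝ) =
      ∑ k ∈ Finset.range (n + 1), al (Nat.nth Nat.Prime k) := by
    unfold ax
    rw [Nat.floor_natCast]
    have hinj : Set.InjOn (Nat.nth Nat.Prime) (Finset.range (n + 1) : Set ℕ) :=
      (Nat.nth_injective Nat.infinite_setOf_prime).injOn
    rw [← Finset.sum_image (g := Nat.nth Nat.Prime) (f := al) hinj]
    symm
    apply Finset.sum_subset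
    · intro m hm
      rw [Finset.mem_image] at hm
      obtain ⟨k, hk, rfl⟩ := hm
      rw [Finset.mem_range] at hk
      rw [Finset.mem_Ioc]
      refine ⟨(Nat.prime_nth_prime k).pos, ?_⟩
      exact (Nat.nth_strictMono Nat.infinite_setOf_prime).monotone (by omega)
    · intro m hm hm2
      unfold al
      rw [if_neg]
      intro hp
      apply hm2
      rw [Finset.mem_Ioc] at hm
      rw [Finset.mem_image]
      refine ⟨Nat.count Nat.Prime m, ?_, Nat.nth_count hp⟩
      rw [Finset.mem_range]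
      have h5 : Nat.count Nat.Prime m ≤ Nat.count Nat.Prime (Nat.nth Nat.Prime n) :=
        Nat.count_monotone _ hm.2
      have h6 := Nat.primeCounting'_nth_eq n
      unfold Nat.primeCounting' at h6
      omega
  rw [h1, Real.exp_sum]
  apply Finset.prod_congr rfl
  intro k _
  have hp := Nat.prime_nth_prime k
  unfold al
  rw [if_pos hp, Real.exp_neg, Real.exp_log]
  have h2 : (2:ℝ) ≤ (Nat.nth Nat.Prime k : ℝ) := by exact_mod_cast hp.two_le
  have h3 : 1 / (Nat.nth Nat.Prime k : ℝ) ≤ 1 / 2 := by gcongr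
  linarith

theorem mertens_prod_tendsto :
    Tendsto (fun n : ℕ => (∏ k ∈ Finset.range (n + 1), (1 - 1 / (Nat.nth Nat.Prime k : ℝ))⁻¹) /
      Real.log (n + 1 : ℝ)) atTop (𝓝 (Real.exp Real.eulerMascheroniConstant)) := by
  have h1 := (Real.continuous_exp.tendsto _).comp
    (ax_sub_loglog_tendsto.comp tendsto_nth_prime_atTop)
  have h2 := h1.mul (log_div_log_nth_tendsto.inv₀ one_ne_zero)
  rw [inv_one, mul_one] at h2
  refine h2.congr' ?_
  have hl : ∀ᶠ n : ℕ in atTop, 0 < Real.log (Nat.nth Nat.Prime n : ℝ) :=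
    (Real.tendsto_log_atTop.comp tendsto_nth_prime_atTop).eventually_gt_atTop 0
  filter_upwards [hl, eventually_gt_atTop 0] with n hn hn1
  simp only [Function.comp]
  rw [prod_nth_eq, Real.exp_sub, Real.exp_log hn, inv_div]
  field_simp

end Helper56
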