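import Mathlib

set_option maxHeartbeats 4000000

open Set Filter Topology

namespace Helper56

/-- weight of a multiset of parts -/
noncomputable def wt (x : ℕ → ℝ) (s : Multiset ℕ) : ℝ := (s.map x).prod

theorem wt_cons (x : ℕ → ℝ) (a : ℕ) (s : Multiset ℕ) : wt x (a ::ₘ s) = x a * wt x s := by
  unfold wt; rw [Multiset.map_cons, Multiset.prod_cons]

theorem wt_nonneg {x : ℕ → ℝ} (hx : ∀ k, 0 ≤ x k) (s : Multiset ℕ) : 0 ≤ wt x s := by
  induction s using Multiset.induction_on with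
  | empty => simp [wt]
  | cons a s ih => rw [wt_cons]; exact mul_nonneg (hx a) ih

/-- removing a part -/
theorem sum_with_part (n k : ℕ) (hk1 : 1 ≤ k) (hkn : k ≤ n) (h : Multiset ℕ → ℝ) :
    ∑ l : Nat.Partition n, (if k ∈ l.parts then h l.parts else 0) =
      ∑ m : Nat.Partition (n - k), h (k ::ₘ m.parts) := by
  rw [← Finset.sum_filter]
  rw [Finset.sum_subtype (p := fun l : Nat.Partition n => k ∈ l.parts) _ (by simp)
    (fun l => h l.parts)]
  rw [← Equiv.sum_comp (Nat.Partition.partitionWithPartEquiv hk1 hkn).symm]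
  apply Finset.sum_congr rfl
  intro m _
  rw [Nat.Partition.partitionWithPartEquiv_symm_apply_parts]

/-- weighted partition sum -/
noncomputable def Wp (x : ℕ → ℝ) (n : ℕ) : ℝ := ∑ l : Nat.Partition n, wt x l.parts

theorem Wp_nonneg {x : ℕ → ℝ} (hx : ∀ k, 0 ≤ x k) (n : ℕ) : 0 ≤ Wp x n :=
  Finset.sum_nonneg (fun _ _ => wt_nonneg hx _)

noncomputable def Up (x : ℕ → ℝ) (n k : ℕ) : ℝ :=
  ∑ l : Nat.Partition n, (l.parts.count k : ℝ) * wt x l.parts

theorem Up_rec (x : ℕ → ℝ) {n k : ℕ} (hk1 : 1 ≤ k) (hkn : k ≤ n) :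
    Up x n k = x k * (Wp x (n - k) + Up x (n - k) k) := by
  have h1 := sum_with_part n k hk1 hkn (fun s => (s.count k : ℝ) * wt x s)
  have h2 : Up x n k = ∑ l : Nat.Partition n,
      (if k ∈ l.parts then (l.parts.count k : ℝ) * wt x l.parts else 0) := by
    unfold Up
    apply Finset.sum_congr rfl
    intro l _
    split_ifs with h
    · rfl
    · rw [Multiset.count_eq_zero_of_notMem h]; simp
  rw [h2, h1]
  unfold Wp Up
  rw [← Finset.sum_add_distrib, Finset.mul_sum]
  apply Finset.sum_congr rfl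
  intro l _
  rw [wt_cons, Multiset.count_cons_self]
  push_cast
  ring

theorem Up_zero (x : ℕ → ℝ) {n k : ℕ} (hkn : n < k) : Up x n k = 0 := by
  unfold Up
  apply Finset.sum_eq_zero
  intro l _
  rw [Multiset.count_eq_zero_of_notMem]
  · simp
  · intro h
    have := Nat.Partition.le_of_mem_parts h
    omega

theorem Up_sum (x : ℕ → ℝ) {k : ℕ} (hk1 : 1 ≤ k) (n : ℕ) :
    Up x n k = ∑ j ∈ Finset.range (n / k), x k ^ (j + 1) * Wp x (n - k * (j + 1)) := by
  induction n using Nat.strong_induction_on with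
  | _ n ih =>
    rcases lt_or_ge n k with h | h
    · rw [Up_zero x h, Nat.div_eq_of_lt h, Finset.range_zero, Finset.sum_empty]
    · rw [Up_rec x hk1 h, ih (n - k) (by omega)]
      have e1 : n / k = (n - k) / k + 1 := by
        rw [Nat.div_eq_sub_div (by omega) h]
      rw [e1, Finset.sum_range_succ']
      simp only [zero_add, pow_one, mul_one]
      rw [mul_add, Finset.mul_sum, add_comm]
      congr 1
      apply Finset.sum_congr rfl
      intro j _
      have e2 : n - k - k * (j + 1) = n - k * (j + 1 + 1) := by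
        rw [Nat.sub_sub]; congr 1; ring
      rw [e2]
      ring

theorem mul_Wp (x : ℕ → ℝ) (n : ℕ) :
    (n:ℝ) * Wp x n = ∑ k ∈ Finset.Icc 1 n, (k:ℝ) * Up x n k := by
  unfold Wp Up
  simp_rw [Finset.mul_sum]
  rw [Finset.sum_comm]
  apply Finset.sum_congr rfl
  intro l _
  have h1 : l.parts.sum = ∑ k ∈ Finset.Icc 1 n, l.parts.count k * k := by
    rw [Finset.sum_multiset_count_of_subset l.parts (Finset.Icc 1 n)]
    · simp
    · intro k hk
      rw [Multiset.mem_toFinset] at hk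
      rw [Finset.mem_Icc]
      exact ⟨l.parts_pos hk, Nat.Partition.le_of_mem_parts hk⟩
  rw [l.parts_sum] at h1
  have h2 : (n:ℝ) = ∑ k ∈ Finset.Icc 1 n, (l.parts.count k : ℝ) * k := by
    exact_mod_cast h1
  conv_lhs => rw [h2]
  rw [Finset.sum_mul]
  apply Finset.sum_congr rfl
  intro k _
  ring

/-- coefficients of the logarithmic derivative -/
noncomputable def cm (x : ℕ → ℝ) (m : ℕ) : ℝ := ∑ k ∈ m.divisors, (k:ℝ) * x k ^ (m / k)

theorem cm_nonneg {x : ℕ → ℝ} (hx : ∀ k, 0 ≤ x k) (m : ℕ) : 0 ≤ cm x m :=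
  Finset.sum_nonneg (fun k _ => mul_nonneg (Nat.cast_nonneg k) (pow_nonneg (hx k) _))

theorem Wp_rec (x : ℕ → ℝ) (n : ℕ) :
    (n:ℝ) * Wp x n = ∑ m ∈ Finset.Icc 1 n, cm x m * Wp x (n - m) := by
  rw [mul_Wp]
  have h1 : ∑ k ∈ Finset.Icc 1 n, (k:ℝ) * Up x n k =
      ∑ k ∈ Finset.Icc 1 n, ∑ j ∈ Finset.range (n / k),
        (k:ℝ) * (x k ^ (j + 1) * Wp x (n - k * (j + 1))) := by
    apply Finset.sum_congr rfl
    intro k hk
    rw [Finset.mem_Icc] at hk
    rw [Up_sum x hk.1, Finset.mul_sum]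
  have h2 : ∑ m ∈ Finset.Icc 1 n, cm x m * Wp x (n - m) =
      ∑ m ∈ Finset.Icc 1 n, ∑ k ∈ m.divisors, ((k:ℝ) * x k ^ (m / k)) * Wp x (n - m) := by
    apply Finset.sum_congr rfl
    intro m _
    unfold cm
    rw [Finset.sum_mul]
  rw [h1, h2, Finset.sum_sigma', Finset.sum_sigma']
  apply Finset.sum_bij' (i := fun (a : (_ : ℕ) × ℕ) _ => (⟨a.1 * (a.2 + 1), a.1⟩ : (_ : ℕ) × ℕ))
    (j := fun (a : (_ : ℕ) × ℕ) _ => (⟨a.2, a.1 / a.2 - 1⟩ : (_ : ℕ) × ℕ))
  · rintro ⟨k, j⟩ h
    simp only [Finset.mem_sigma, Finset.mem_Icc, Finset.mem_range, Nat.mem_divisors] at h ⊢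
    obtain ⟨⟨h1, h2⟩, h3⟩ := h
    have h4 : k * (j + 1) ≤ n := by
      have := (Nat.lt_div_iff_mul_lt (by omega) |>.mp h3)
      have h5 : j + 1 ≤ n / k := h3
      calc k * (j + 1) ≤ k * (n / k) := Nat.mul_le_mul_left k h5
        _ ≤ n := Nat.mul_div_le n k
    refine ⟨⟨?_, h4⟩, ⟨Dvd.intro _ rfl, ?_⟩⟩
    · exact Nat.mul_pos (by omega) (by omega)
    · exact (Nat.mul_pos (by omega) (by omega)).ne'
  · rintro ⟨m, k⟩ h
    simp only [Finset.mem_sigma, Finset.mem_Icc, Finset.mem_range, Nat.mem_divisors] at h ⊢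
    obtain ⟨⟨h1, h2⟩, h3, h4⟩ := h
    have hk : 0 < k := Nat.pos_of_dvd_of_pos h3 (by omega)
    have hkm : k ≤ m := Nat.le_of_dvd (by omega) h3
    refine ⟨⟨hk, by omega⟩, ?_⟩
    have h5 : m / k ≤ n / k := Nat.div_le_div_right h2
    have h6 : 0 < m / k := Nat.div_pos hkm hk
    omega
  · rintro ⟨k, j⟩ h
    simp only [Finset.mem_sigma, Finset.mem_Icc, Finset.mem_range] at h
    obtain ⟨⟨h1, h2⟩, h3⟩ := h
    have : k * (j + 1) / k - 1 = j := by
      rw [Nat.mul_div_cancel_left _ (by omega)]; omega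
    simp only [this]
  · rintro ⟨m, k⟩ h
    simp only [Finset.mem_sigma, Finset.mem_Icc, Nat.mem_divisors] at h
    obtain ⟨⟨h1, h2⟩, h3, h4⟩ := h
    have hk : 0 < k := Nat.pos_of_dvd_of_pos h3 (by omega)
    have hkm : k ≤ m := Nat.le_of_dvd (by omega) h3
    have h6 : 0 < m / k := Nat.div_pos hkm hk
    have : k * (m / k - 1 + 1) = m := by
      rw [Nat.sub_add_cancel h6]; exact Nat.mul_div_cancel' h3
    simp only [this]
  · rintro ⟨k, j⟩ h
    simp only [Finset.mem_sigma, Finset.mem_Icc, Finset.mem_range] at h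
    obtain ⟨⟨h1, h2⟩, h3⟩ := h
    have : k * (j + 1) / k = j + 1 := Nat.mul_div_cancel_left _ (by omega)
    simp only [this]
    ring

/-- partitions with all parts at most `K` -/
noncomputable def wK (x : ℕ → ℝ) (K n : ℕ) : ℝ :=
  ∑ l : Nat.Partition n, (if ∀ i ∈ l.parts, i ≤ K then wt x l.parts else 0)

theorem wK_nonneg {x : ℕ → ℝ} (hx : ∀ k, 0 ≤ x k) (K n : ℕ) : 0 ≤ wK x K n := by
  apply Finset.sum_nonneg
  intro l _
  split_ifs
  · exact wt_nonneg hx _
  · exact le_rfl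

theorem wK_eq (x : ℕ → ℝ) {K n : ℕ} (h : n ≤ K) : wK x K n = Wp x n := by
  unfold wK Wp
  apply Finset.sum_congr rfl
  intro l _
  rw [if_pos]
  intro i hi
  exact le_trans (Nat.Partition.le_of_mem_parts hi) h

theorem wK_rec (x : ℕ → ℝ) (K n : ℕ) :
    wK x (K + 1) n = wK x K n +
      (if K + 1 ≤ n then x (K + 1) * wK x (K + 1) (n - (K + 1)) else 0) := by
  have h1 : wK x (K + 1) n = wK x K n + ∑ l : Nat.Partition n, (if K + 1 ∈ l.parts then
      (if ∀ i ∈ l.parts, i ≤ K + 1 then wt x l.parts else 0) else 0) := by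
    unfold wK
    rw [← Finset.sum_add_distrib]
    apply Finset.sum_congr rfl
    intro l _
    by_cases h2 : K + 1 ∈ l.parts
    · rw [if_pos h2]
      have h3 : ¬ ∀ i ∈ l.parts, i ≤ K := by
        intro h4
        have := h4 _ h2
        omega
      rw [if_neg h3, zero_add]
    · rw [if_neg h2, add_zero]
      have h3 : (∀ i ∈ l.parts, i ≤ K + 1) ↔ (∀ i ∈ l.parts, i ≤ K) := by
        constructor
        · intro h4 i hi
          have h5 := h4 i hi
          rcases Nat.lt_or_ge i (K + 1) with h6 | h6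
          · omega
          · have : i = K + 1 := by omega
            rw [this] at hi
            exact absurd hi h2
        · intro h4 i hi
          have := h4 i hi
          omega
      simp only [h3]
  rw [h1]
  congr 1
  split_ifs with h2
  · rw [sum_with_part n (K + 1) (by omega) h2
      (fun s => if ∀ i ∈ s, i ≤ K + 1 then wt x s else 0)]
    unfold wK
    rw [Finset.mul_sum]
    apply Finset.sum_congr rfl
    intro l _
    have h3 : (∀ i ∈ (K + 1) ::ₘ l.parts, i ≤ K + 1) ↔ (∀ i ∈ l.parts, i ≤ K + 1) := by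
      simp
    simp only [h3, wt_cons]
    split_ifs <;> simp
  · apply Finset.sum_eq_zero
    intro l _
    rw [if_neg]
    intro h3
    have := Nat.Partition.le_of_mem_parts h3
    omega

theorem wK_zero (x : ℕ → ℝ) (n : ℕ) : wK x 0 n = if n = 0 then 1 else 0 := by
  split_ifs with h
  · subst h
    rw [wK_eq x le_rfl]
    unfold Wp
    rw [Fintype.sum_unique]
    simp [wt]
  · unfold wK
    apply Finset.sum_eq_zero
    intro l _
    rw [if_neg]
    intro h2
    have h3 : l.parts = 0 := by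
      rw [Multiset.eq_zero_iff_forall_notMem]
      intro i hi
      have h4 := h2 i hi
      have h5 := l.parts_pos hi
      omega
    have h4 := l.parts_sum
    rw [h3] at h4
    simp at h4
    exact h h4.symm

theorem sum_shift (f : ℕ → ℝ) (a N : ℕ) :
    ∑ n ∈ Finset.range N, (if a ≤ n then f n else 0) = ∑ n ∈ Finset.range (N - a), f (n + a) := by
  rw [← Finset.sum_filter]
  symm
  apply Finset.sum_nbij' (fun n => n + a) (fun n => n - a)
  · intro n hn
    rw [Finset.mem_range] at hn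
    rw [Finset.mem_filter, Finset.mem_range]
    omega
  · intro n hn
    rw [Finset.mem_filter, Finset.mem_range] at hn
    rw [Finset.mem_range]
    omega
  · intro n hn; omega
  · intro n hn
    rw [Finset.mem_filter, Finset.mem_range] at hn
    omega
  · intro n hn; rfl

noncomputable def SK (x : ℕ → ℝ) (K N : ℕ) : ℝ := ∑ n ∈ Finset.range N, wK x K n

noncomputable def MK (x : ℕ → ℝ) (K N : ℕ) : ℝ := ∑ n ∈ Finset.range N, (n:ℝ) * wK x K n

theorem SK_rec (x : ℕ → ℝ) (K N : ℕ) :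
    SK x (K + 1) N = SK x K N + x (K + 1) * SK x (K + 1) (N - (K + 1)) := by
  unfold SK
  rw [Finset.mul_sum]
  have h1 := sum_shift (fun n => x (K + 1) * wK x (K + 1) (n - (K + 1))) (K + 1) N
  simp only [Nat.add_sub_cancel] at h1
  rw [← h1, ← Finset.sum_add_distrib]
  apply Finset.sum_congr rfl
  intro n _
  exact wK_rec x K n

theorem MK_rec (x : ℕ → ℝ) (K N : ℕ) :
    MK x (K + 1) N = MK x K N + x (K + 1) * (MK x (K + 1) (N - (K + 1)) +
      ((K + 1 : ℕ) : ℝ) * SK x (K + 1) (N - (K + 1))) := by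
  unfold MK SK
  have h1 := sum_shift (fun n => (n:ℝ) * (x (K + 1) * wK x (K + 1) (n - (K + 1)))) (K + 1) N
  simp only [Nat.add_sub_cancel] at h1
  have h2 : x (K + 1) * (∑ n ∈ Finset.range (N - (K + 1)), (n:ℝ) * wK x (K + 1) n +
      ((K + 1 : ℕ) : ℝ) * ∑ n ∈ Finset.range (N - (K + 1)), wK x (K + 1) n) =
      ∑ n ∈ Finset.range (N - (K + 1)), ((n + (K + 1) : ℕ) : ℝ) * (x (K + 1) * wK x (K + 1) n) := by
    rw [Finset.mul_sum, ← Finset.sum_add_distrib, Finset.mul_sum]
    apply Finset.sum_congr rfl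
    intro n _
    push_cast
    ring
  rw [h2, ← h1, ← Finset.sum_add_distrib]
  apply Finset.sum_congr rfl
  intro n _
  rw [wK_rec x K n]
  split_ifs <;> ring

theorem SK_mono {x : ℕ → ℝ} (hx : ∀ k, 0 ≤ x k) (K : ℕ) : Monotone (SK x K) := by
  intro a b hab
  unfold SK
  apply Finset.sum_le_sum_of_subset_of_nonneg
  · exact Finset.range_mono hab
  · intro i _ _; exact wK_nonneg hx K i

theorem MK_mono {x : ℕ → ℝ} (hx : ∀ k, 0 ≤ x k) (K : ℕ) : Monotone (MK x K) := by
  intro a b hab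
  unfold MK
  apply Finset.sum_le_sum_of_subset_of_nonneg
  · exact Finset.range_mono hab
  · intro i _ _; exact mul_nonneg (Nat.cast_nonneg i) (wK_nonneg hx K i)

noncomputable def PK (x : ℕ → ℝ) (K : ℕ) : ℝ := ∏ k ∈ Finset.range K, (1 - x (k + 1))⁻¹

noncomputable def BK (x : ℕ → ℝ) (K : ℕ) : ℝ :=
  ∑ k ∈ Finset.range K, ((k + 1 : ℕ) : ℝ) * x (k + 1) / (1 - x (k + 1))

theorem PK_pos {x : ℕ → ℝ} (hx2 : ∀ k, x k ≤ 1 / 2) (K : ℕ) : 0 < PK x K := by
  unfold PK
  apply Finset.prod_pos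
  intro k _
  have := hx2 (k + 1)
  have h2 : 0 < 1 - x (k + 1) := by linarith
  positivity

theorem PK_succ {x : ℕ → ℝ} (hx2 : ∀ k, x k ≤ 1 / 2) (K : ℕ) :
    PK x (K + 1) * (1 - x (K + 1)) = PK x K := by
  unfold PK
  rw [Finset.prod_range_succ]
  have := hx2 (K + 1)
  have h2 : 1 - x (K + 1) ≠ 0 := by linarith
  field_simp

theorem SK_zero_le (x : ℕ → ℝ) (N : ℕ) : SK x 0 N ≤ 1 := by
  unfold SK
  simp_rw [wK_zero]
  rw [Finset.sum_ite_eq']
  split_ifs <;> norm_num

theorem SK_le {x : ℕ → ℝ} (hx : ∀ k, 0 ≤ x k) (hx2 : ∀ k, x k ≤ 1 / 2) (K : ℕ) :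
    ∀ N, SK x K N ≤ PK x K := by
  induction K with
  | zero =>
    intro N
    have := SK_zero_le x N
    unfold PK
    rw [Finset.prod_range_zero]
    exact this
  | succ K ih =>
    intro N
    have h1 := SK_rec x K N
    have h2 := SK_mono hx (K + 1) (Nat.sub_le N (K + 1))
    have h3 := ih N
    have h4 := PK_succ hx2 K
    have h5 := hx (K + 1)
    have h6 := hx2 (K + 1)
    have h7 : SK x (K + 1) N * (1 - x (K + 1)) ≤ PK x (K + 1) * (1 - x (K + 1)) := by
      nlinarith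
    exact le_of_mul_le_mul_right h7 (by linarith)

theorem MK_le {x : ℕ → ℝ} (hx : ∀ k, 0 ≤ x k) (hx2 : ∀ k, x k ≤ 1 / 2) (K : ℕ) :
    ∀ N, MK x K N ≤ PK x K * BK x K := by
  induction K with
  | zero =>
    intro N
    unfold MK BK
    rw [Finset.sum_range_zero, mul_zero]
    apply le_of_eq
    apply Finset.sum_eq_zero
    intro n _
    rw [wK_zero]
    split_ifs with h
    · subst h; simp
    · simp
  | succ K ih =>
    intro N
    have h1 := MK_rec x K N
    have h2 := MK_mono hx (K + 1) (Nat.sub_le N (K + 1))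
    have h3 := ih N
    have h4 := PK_succ hx2 K
    have h5 := hx (K + 1)
    have h6 := hx2 (K + 1)
    have h8 := SK_le hx hx2 (K + 1) (N - (K + 1))
    have h9 : BK x (K + 1) = BK x K + ((K + 1 : ℕ) : ℝ) * x (K + 1) / (1 - x (K + 1)) := by
      unfold BK
      rw [Finset.sum_range_succ]
    have h10 : 1 - x (K + 1) ≠ 0 := by linarith
    have h11 : (PK x (K + 1) * BK x (K + 1)) * (1 - x (K + 1)) =
        PK x K * BK x K + x (K + 1) * (((K + 1 : ℕ) : ℝ) * PK x (K + 1)) := by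
      rw [h9, ← h4]
      field_simp
    have h12 : (0:ℝ) ≤ ((K + 1 : ℕ) : ℝ) := Nat.cast_nonneg _
    have h13 : x (K + 1) * (MK x (K + 1) (N - (K + 1)) +
        ((K + 1 : ℕ) : ℝ) * SK x (K + 1) (N - (K + 1))) ≤
        x (K + 1) * (MK x (K + 1) N + ((K + 1 : ℕ) : ℝ) * PK x (K + 1)) := by
      gcongr
    have h7 : MK x (K + 1) N * (1 - x (K + 1)) ≤ (PK x (K + 1) * BK x (K + 1)) * (1 - x (K + 1)) := by
      rw [h11]
      nlinarith
    exact le_of_mul_le_mul_right h7 (by linarith)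

theorem SK_tendsto {x : ℕ → ℝ} (hx : ∀ k, 0 ≤ x k) (hx2 : ∀ k, x k ≤ 1 / 2) (K : ℕ) :
    Tendsto (SK x K) atTop (𝓝 (PK x K)) := by
  induction K with
  | zero =>
    have : PK x 0 = 1 := by unfold PK; rw [Finset.prod_range_zero]
    rw [this]
    apply tendsto_const_nhds.congr'
    filter_upwards [eventually_gt_atTop 0] with N hN
    unfold SK
    simp_rw [wK_zero]
    rw [Finset.sum_ite_eq', if_pos (Finset.mem_range.mpr hN)]
  | succ K ih =>
    have hmono := SK_mono hx (K + 1)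
    have hbdd : BddAbove (range (SK x (K + 1))) := by
      refine ⟨PK x (K + 1), ?_⟩
      rintro _ ⟨N, rfl⟩
      exact SK_le hx hx2 (K + 1) N
    have h1 := tendsto_atTop_ciSup hmono hbdd
    set l := ⨆ i, SK x (K + 1) i
    have hsub : Tendsto (fun N : ℕ => N - (K + 1)) atTop atTop := by
      apply tendsto_atTop.mpr
      intro b
      filter_upwards [eventually_ge_atTop (b + (K + 1))] with n hn
      omega
    have h2 : Tendsto (fun N => SK x K N + x (K + 1) * SK x (K + 1) (N - (K + 1))) atTop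
        (𝓝 (PK x K + x (K + 1) * l)) := ih.add ((h1.comp hsub).const_mul _)
    have h3 : Tendsto (SK x (K + 1)) atTop (𝓝 (PK x K + x (K + 1) * l)) := by
      refine h2.congr ?_
      intro N
      rw [SK_rec x K N]
    have h4 := tendsto_nhds_unique h1 h3
    have h5 := PK_succ hx2 K
    have h6 := hx2 (K + 1)
    have h7 : l * (1 - x (K + 1)) = PK x (K + 1) * (1 - x (K + 1)) := by
      rw [h5]; linarith
    have h8 : l = PK x (K + 1) := mul_right_cancel₀ (by linarith : 1 - x (K + 1) ≠ 0) h7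
    rw [h8] at h1
    exact h1

theorem PK_sub_SK_le {x : ℕ → ℝ} (hx : ∀ k, 0 ≤ x k) (hx2 : ∀ k, x k ≤ 1 / 2) (K : ℕ) {N : ℕ}
    (hN : 0 < N) : PK x K - SK x K N ≤ PK x K * BK x K / N := by
  have h1 : Tendsto (fun N' => SK x K N' - SK x K N) atTop (𝓝 (PK x K - SK x K N)) :=
    (SK_tendsto hx hx2 K).sub_const _
  apply le_of_tendsto h1
  filter_upwards [eventually_ge_atTop N] with N' hN'
  have hN0 : (0:ℝ) < N := by exact_mod_cast hN
  rw [le_div_iff₀ hN0]
  refine le_trans ?_ (MK_le hx hx2 K N')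
  have h2 : SK x K N' - SK x K N = ∑ n ∈ Finset.Ico N N', wK x K n := by
    unfold SK
    rw [Finset.sum_Ico_eq_sub _ hN']
  rw [h2, Finset.sum_mul]
  have h3 : MK x K N' = ∑ n ∈ Finset.range N, (n:ℝ) * wK x K n +
      ∑ n ∈ Finset.Ico N N', (n:ℝ) * wK x K n := by
    unfold MK
    rw [Finset.sum_range_add_sum_Ico _ hN']
  rw [h3]
  have h4 : 0 ≤ ∑ n ∈ Finset.range N, (n:ℝ) * wK x K n :=
    Finset.sum_nonneg (fun i _ => mul_nonneg (Nat.cast_nonneg i) (wK_nonneg hx K i))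
  have h5 : ∑ n ∈ Finset.Ico N N', wK x K n * N ≤ ∑ n ∈ Finset.Ico N N', (n:ℝ) * wK x K n := by
    apply Finset.sum_le_sum
    intro n hn
    rw [Finset.mem_Ico] at hn
    have : (N:ℝ) ≤ n := by exact_mod_cast hn.1
    have h6 := wK_nonneg hx K n
    nlinarith
  linarith

end Helper56
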