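import Mathlib

set_option maxHeartbeats 4000000

open Set Filter Topology

namespace Helper56

/-- If `n W(n) = ∑_{m=1}^n c(m) W(n-m)` with `c(m) log m → 1`, `c, W ≥ 0` and
`∑_{j ≤ n} W(j) ~ L log n`, then `n W(n) → L`. -/
theorem renewal_asymp {c W : ℕ → ℝ} {L : ℝ} (hc0 : ∀ m, 0 ≤ c m) (hW : ∀ n, 0 ≤ W n)
    (hrec : ∀ n : ℕ, (n:ℝ) * W n = ∑ m ∈ Finset.Icc 1 n, c m * W (n - m))
    (hc : Tendsto (fun m : ℕ => c m * Real.log m) atTop (𝓝 1))
    (hC : Tendsto (fun n : ℕ => (∑ j ∈ Finset.range n, W j) / Real.log n) atTop (𝓝 L)) :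
    Tendsto (fun n : ℕ => (n:ℝ) * W n) atTop (𝓝 L) := by
  have hlogN : Tendsto (fun n : ℕ => Real.log (n:ℝ)) atTop atTop :=
    Real.tendsto_log_atTop.comp tendsto_natCast_atTop_atTop
  -- c m → 0
  have hc1 : Tendsto c atTop (𝓝 0) := by
    have h1 := hc.mul hlogN.inv_tendsto_atTop
    rw [mul_zero] at h1
    refine h1.congr' ?_
    filter_upwards [hlogN.eventually_gt_atTop 0] with n hn
    simp only [Pi.inv_apply]
    field_simp
  have hces := hc1.cesaro
  -- average over 1..n
  have hdel : Tendsto (fun n : ℕ => 2 * ((n:ℝ)⁻¹ * ∑ m ∈ Finset.Icc 1 (n / 2), c m)) atTop (𝓝 0) := by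
    have h2 : Tendsto (fun n : ℕ => 2 * ((n:ℝ)⁻¹ * ∑ m ∈ Finset.range n, c m)) atTop (𝓝 0) := by
      have := hces.const_mul 2
      rwa [mul_zero] at this
    refine tendsto_of_tendsto_of_tendsto_of_le_of_le' tendsto_const_nhds h2 ?_ ?_
    · filter_upwards with n
      have : 0 ≤ ∑ m ∈ Finset.Icc 1 (n / 2), c m := Finset.sum_nonneg (fun m _ => hc0 m)
      positivity
    · filter_upwards [eventually_gt_atTop 0] with n hn
      have : ∑ m ∈ Finset.Icc 1 (n / 2), c m ≤ ∑ m ∈ Finset.range n, c m := by
        apply Finset.sum_le_sum_of_subset_of_nonneg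
        · intro m hm
          rw [Finset.mem_Icc] at hm
          rw [Finset.mem_range]
          omega
        · intro m _ _; exact hc0 m
      gcongr
  -- splitting
  set A : ℕ → ℝ := fun n => ∑ m ∈ Finset.Icc 1 (n / 2), c m * W (n - m) with hA
  set B : ℕ → ℝ := fun n => ∑ m ∈ Finset.Ioc (n / 2) n, c m * W (n - m) with hB
  have hsplit : ∀ n : ℕ, (n:ℝ) * W n = A n + B n := by
    intro n
    rw [hrec n, hA, hB]
    have e1 : Finset.Icc 1 n = Finset.Icc 1 (n / 2) ∪ Finset.Ioc (n / 2) n := by
      ext m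
      simp only [Finset.mem_Icc, Finset.mem_union, Finset.mem_Ioc]
      omega
    rw [e1, Finset.sum_union]
    rw [Finset.disjoint_left]
    intro m h1 h2
    rw [Finset.mem_Icc] at h1
    rw [Finset.mem_Ioc] at h2
    omega
  -- the sum of W over the B range
  have hWsum : ∀ n : ℕ, ∑ m ∈ Finset.Ioc (n / 2) n, W (n - m) =
      ∑ j ∈ Finset.range (n - n / 2), W j := by
    intro n
    apply Finset.sum_nbij' (fun m => n - m) (fun j => n - j)
    · intro m hm
      rw [Finset.mem_Ioc] at hm
      rw [Finset.mem_range]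
      omega
    · intro j hj
      rw [Finset.mem_range] at hj
      rw [Finset.mem_Ioc]
      omega
    · intro m hm
      rw [Finset.mem_Ioc] at hm
      omega
    · intro j hj
      rw [Finset.mem_range] at hj
      omega
    · intro m hm
      rfl
  -- log(n - n/2) / log n → 1
  have hhalf : Tendsto (fun n : ℕ => n - n / 2) atTop atTop := by
    apply tendsto_atTop.mpr
    intro b
    filter_upwards [eventually_ge_atTop (2 * b)] with n hn
    omega
  have hlogr : Tendsto (fun n : ℕ => (Real.log n - Real.log 2) / Real.log n) atTop (𝓝 1) := by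
    have h1 : Tendsto (fun n : ℕ => 1 - Real.log 2 * (Real.log n)⁻¹) atTop (𝓝 (1 - Real.log 2 * 0)) :=
      tendsto_const_nhds.sub (hlogN.inv_tendsto_atTop.const_mul _)
    rw [mul_zero, sub_zero] at h1
    refine h1.congr' ?_
    filter_upwards [hlogN.eventually_gt_atTop 0] with n hn
    field_simp
  have hlogh : Tendsto (fun n : ℕ => Real.log ((n - n / 2 : ℕ) : ℝ) / Real.log n) atTop (𝓝 1) := by
    refine tendsto_of_tendsto_of_tendsto_of_le_of_le' hlogr tendsto_const_nhds ?_ ?_
    · filter_upwards [hlogN.eventually_gt_atTop 0, eventually_gt_atTop 0] with n hn hn0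
      have hn0' : (0:ℝ) < n := by exact_mod_cast hn0
      apply div_le_div_of_nonneg_right _ hn.le
      rw [← Real.log_div hn0'.ne' (by norm_num)]
      apply Real.log_le_log (by positivity)
      rw [div_le_iff₀ (by norm_num)]
      have : n ≤ (n - n / 2) * 2 := by omega
      exact_mod_cast this
    · filter_upwards [hlogN.eventually_gt_atTop 0, eventually_gt_atTop 1] with n hn hn0
      rw [div_le_one hn]
      apply Real.log_le_log
      · have : 0 < n - n / 2 := by omega
        exact_mod_cast this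
      · have : n - n / 2 ≤ n := by omega
        exact_mod_cast this
  have hCh : Tendsto (fun n : ℕ => (∑ j ∈ Finset.range (n - n / 2), W j) / Real.log n) atTop
      (𝓝 L) := by
    have h1 := (hC.comp hhalf).mul hlogh
    rw [mul_one] at h1
    refine h1.congr' ?_
    have h2 : ∀ᶠ n : ℕ in atTop, 0 < Real.log ((n - n / 2 : ℕ) : ℝ) :=
      (hlogN.comp hhalf).eventually_gt_atTop 0
    filter_upwards [h2] with n hn
    simp only [Function.comp]
    field_simp
  have hCh2 : Tendsto (fun n : ℕ => (∑ j ∈ Finset.range (n - n / 2), W j) /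
      (Real.log n - Real.log 2)) atTop (𝓝 L) := by
    have h1 := hCh.mul (hlogr.inv₀ one_ne_zero)
    rw [inv_one, mul_one] at h1
    refine h1.congr' ?_
    filter_upwards [hlogN.eventually_gt_atTop 0, hlogN.eventually_gt_atTop (Real.log 2)] with n h2 h3
    have h4 : Real.log n - Real.log 2 ≠ 0 := by linarith
    rw [inv_div]
    field_simp
  have hSn : ∀ n : ℕ, 0 ≤ ∑ j ∈ Finset.range (n - n / 2), W j :=
    fun n => Finset.sum_nonneg (fun j _ => hW j)
  -- B n → L
  have hBlim : Tendsto B atTop (𝓝 L) := by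
    have hup : ∀ η : ℝ, 0 < η → ∀ᶠ n : ℕ in atTop,
        B n ≤ (1 + η) * ((∑ j ∈ Finset.range (n - n / 2), W j) / (Real.log n - Real.log 2)) := by
      intro η hη
      have h1 := (tendsto_order.1 hc).2 (1 + η) (by linarith)
      rw [eventually_atTop] at h1
      obtain ⟨N0, hN0⟩ := h1
      filter_upwards [eventually_ge_atTop (2 * N0 + 4), hlogN.eventually_gt_atTop (Real.log 2)] with n hn hn2
      rw [hB, ← hWsum, mul_div_assoc', Finset.mul_sum, Finset.sum_div]
      apply Finset.sum_le_sum
      intro m hm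
      rw [Finset.mem_Ioc] at hm
      have h2 := hN0 m (by omega)
      have hm0 : (0:ℝ) < m := by
        have : 0 < m := by omega
        exact_mod_cast this
      have hn0 : (0:ℝ) < n := by
        have : 0 < n := by omega
        exact_mod_cast this
      have h3 : Real.log n - Real.log 2 ≤ Real.log m := by
        rw [← Real.log_div hn0.ne' (by norm_num)]
        apply Real.log_le_log (by positivity)
        rw [div_le_iff₀ (by norm_num)]
        have : n ≤ m * 2 := by omega
        exact_mod_cast this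
      have h4 : 0 < Real.log n - Real.log 2 := by linarith
      have h5 : c m ≤ (1 + η) / (Real.log n - Real.log 2) := by
        rw [le_div_iff₀ h4]
        calc c m * (Real.log n - Real.log 2) ≤ c m * Real.log m := by
              apply mul_le_mul_of_nonneg_left h3 (hc0 m)
          _ ≤ 1 + η := h2.le
      calc c m * W (n - m) ≤ ((1 + η) / (Real.log n - Real.log 2)) * W (n - m) := by
            apply mul_le_mul_of_nonneg_right h5 (hW _)
        _ = _ := by ring
    have hlow : ∀ η : ℝ, 0 < η → η < 1 → ∀ᶠ n : ℕ in atTop,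
        (1 - η) * ((∑ j ∈ Finset.range (n - n / 2), W j) / Real.log n) ≤ B n := by
      intro η hη hη1
      have h1 := (tendsto_order.1 hc).1 (1 - η) (by linarith)
      rw [eventually_atTop] at h1
      obtain ⟨N0, hN0⟩ := h1
      filter_upwards [eventually_ge_atTop (2 * N0 + 4), hlogN.eventually_gt_atTop 0] with n hn hn2
      rw [hB, ← hWsum, mul_div_assoc', Finset.mul_sum, Finset.sum_div]
      apply Finset.sum_le_sum
      intro m hm
      rw [Finset.mem_Ioc] at hm
      have h2 := hN0 m (by omega)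
      have hm0 : (0:ℝ) < m := by
        have : 0 < m := by omega
        exact_mod_cast this
      have h3 : Real.log m ≤ Real.log n := by
        apply Real.log_le_log hm0
        exact_mod_cast hm.2
      have h5 : (1 - η) / Real.log n ≤ c m := by
        rw [div_le_iff₀ hn2]
        calc 1 - η ≤ c m * Real.log m := h2.le
          _ ≤ c m * Real.log n := mul_le_mul_of_nonneg_left h3 (hc0 m)
      calc (1 - η) * W (n - m) / Real.log n = ((1 - η) / Real.log n) * W (n - m) := by ring
        _ ≤ _ := mul_le_mul_of_nonneg_right h5 (hW _)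
    rw [tendsto_order]
    constructor
    · intro a ha
      obtain ⟨η, hη, hη1, hηa⟩ : ∃ η : ℝ, 0 < η ∧ η < 1 ∧ a < (1 - η) * L := by
        have hcont : Tendsto (fun η : ℝ => (1 - η) * L) (𝓝[>] 0) (𝓝 ((1 - 0) * L)) := by
          apply tendsto_nhdsWithin_of_tendsto_nhds
          exact (Continuous.tendsto (by fun_prop) 0)
        rw [sub_zero, one_mul] at hcont
        have h1 := (tendsto_order.1 hcont).1 a ha
        have h2 : ∀ᶠ η : ℝ in 𝓝[>] 0, η < 1 := by
          apply nhdsWithin_le_nhds
          exact gt_mem_nhds one_pos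
        obtain ⟨η, h3, h4, h5⟩ := (h1.and (h2.and self_mem_nhdsWithin)).exists
        exact ⟨η, h5, h4, h3⟩
      have h1 := hCh.const_mul (1 - η)
      filter_upwards [hlow η hη hη1, (tendsto_order.1 h1).1 a hηa] with n h2 h3
      linarith
    · intro a ha
      obtain ⟨η, hη, hηa⟩ : ∃ η : ℝ, 0 < η ∧ (1 + η) * L < a := by
        have hcont : Tendsto (fun η : ℝ => (1 + η) * L) (𝓝[>] 0) (𝓝 ((1 + 0) * L)) := by
          apply tendsto_nhdsWithin_of_tendsto_nhds
          exact (Continuous.tendsto (by fun_prop) 0)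
        rw [add_zero, one_mul] at hcont
        have h1 := (tendsto_order.1 hcont).2 a ha
        obtain ⟨η, h3, h5⟩ := (h1.and self_mem_nhdsWithin).exists
        exact ⟨η, h5, h3⟩
      have h1 := hCh2.const_mul (1 + η)
      filter_upwards [hup η hη, (tendsto_order.1 h1).2 a hηa] with n h2 h3
      linarith
  -- key bound for A
  have hAbound : ∀ (n : ℕ) (M : ℝ), 2 ≤ n → (∀ j < n, (j:ℝ) * W j ≤ M) →
      A n ≤ (2 * ((n:ℝ)⁻¹ * ∑ m ∈ Finset.Icc 1 (n / 2), c m)) * M := by
    intro n M hn hM
    rw [hA]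
    have e : (2 * ((n:ℝ)⁻¹ * ∑ m ∈ Finset.Icc 1 (n / 2), c m)) * M =
        ∑ m ∈ Finset.Icc 1 (n / 2), c m * (2 * M / n) := by
      rw [← Finset.sum_mul]
      ring
    rw [e]
    apply Finset.sum_le_sum
    intro m hm
    rw [Finset.mem_Icc] at hm
    apply mul_le_mul_of_nonneg_left _ (hc0 m)
    have h1 := hM (n - m) (by omega)
    have hn0 : (0:ℝ) < n := by
      have : 0 < n := by omega
      exact_mod_cast this
    rw [le_div_iff₀ hn0]
    have h2 : (n:ℝ) ≤ 2 * ((n - m : ℕ) : ℝ) := by
      have : n ≤ 2 * (n - m) := by omega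
      exact_mod_cast this
    have h3 := hW (n - m)
    nlinarith
  -- boundedness
  obtain ⟨M, hM⟩ : ∃ M : ℝ, ∀ j : ℕ, (j:ℝ) * W j ≤ M := by
    have h1 := (tendsto_order.1 hdel).2 (1/2) (by norm_num)
    have h2 := (tendsto_order.1 hBlim).2 (L + 1) (by linarith)
    rw [eventually_atTop] at h1 h2
    obtain ⟨N1, hN1⟩ := h1
    obtain ⟨N2, hN2⟩ := h2
    set N := max (max N1 N2) 2 with hN
    obtain ⟨M0, hM0⟩ : ∃ M0 : ℝ, ∀ j ∈ Finset.range N, (j:ℝ) * W j ≤ M0 := by
      refine ⟨∑ j ∈ Finset.range N, (j:ℝ) * W j, ?_⟩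
      intro j hj
      apply Finset.single_le_sum (f := fun j : ℕ => (j:ℝ) * W j) (fun i _ => ?_) hj
      exact mul_nonneg (Nat.cast_nonneg i) (hW i)
    refine ⟨max (max M0 0) (2 * (L + 1)), ?_⟩
    intro j
    induction j using Nat.strong_induction_on with
    | _ n ih =>
      by_cases hn : n < N
      · exact le_trans (hM0 n (Finset.mem_range.mpr hn)) (le_trans (le_max_left _ _) (le_max_left _ _))
      · have h3 := hAbound n _ (by omega) ih
        have h4 := hN1 n (by omega)
        have h5 := hN2 n (by omega)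
        rw [hsplit n]
        set M := max (max M0 0) (2 * (L + 1))
        have hM1 : 0 ≤ M := le_trans (le_max_right _ _) (le_max_left _ _)
        have hM2 : 2 * (L + 1) ≤ M := le_max_right _ _
        nlinarith
  -- A n → 0
  have hAlim : Tendsto A atTop (𝓝 0) := by
    have h1 := hdel.mul_const M
    rw [zero_mul] at h1
    refine tendsto_of_tendsto_of_tendsto_of_le_of_le' tendsto_const_nhds h1 ?_ ?_
    · filter_upwards with n
      exact Finset.sum_nonneg (fun m _ => mul_nonneg (hc0 m) (hW _))
    · filter_upwards [eventually_ge_atTop 2] with n hn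
      exact hAbound n M hn (fun j _ => hM j)
  have := hAlim.add hBlim
  rw [zero_add] at this
  refine this.congr ?_
  intro n
  rw [hsplit n]

end Helper56
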